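import Pool.Agent.U17.PN.Prog
import Pool.Agent.H622R3.SM.T_COMP
import Pool.Agent.H622R3.SM.T_PM
import Pool.Agent.H671R2.PolyAuto

/-!
# The controller
-/

set_option autoImplicit false

namespace Pool.Agent.U17.PN

open Pool.Agent.H558R2 Pool.Agent.H622R3.SM Pool.Agent.NPC
open Pool.Agent.H622R3.SM.TPM (pInstr)

variable {α : Type} [TEnc α]

attribute [local fun_prop] pInstr

theorem poly_nodesL {U V : α → List Unit} (hU : Poly U) (hV : Poly V) :
    Poly (fun a => nodesL (U a).length (V a).length) := by
  unfold nodesL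
  have h1 : Poly (fun a => List.range (2 * (U a).length + 5)) :=
    (((UPoly.const 2).mul (UPoly.length hU)).add (UPoly.const 5)).range
  have h2 : Poly (fun a => List.range (2 * (V a).length + 5)) :=
    (((UPoly.const 2).mul (UPoly.length hV)).add (UPoly.const 5)).range
  exact R671.poly_product h1 h2

theorem poly_cabB {m n : α → ℕ} {e : α → Cb} (hm : Poly m) (hn : Poly n) (he : Poly e) :
    Poly (fun a => cabB (m a) (n a) (e a)) := by
  unfold cabB
  fun_prop

theorem poly_freeB {m n : α → ℕ} {v : α → ℕ × ℕ} (hm : Poly m) (hn : Poly n) (hv : Poly v) :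
    Poly (fun a => freeB (m a) (n a) (v a)) := by
  unfold freeB
  fun_prop

theorem poly_cabL {U V : α → List Unit} (hU : Poly U) (hV : Poly V) :
    Poly (fun a => cabL (U a).length (V a).length) := by
  unfold cabL
  refine Poly.filter (R671.poly_product (poly_nodesL hU hV) (poly_nodesL hU hV)) ?_
  exact poly_cabB (by fun_prop) (by fun_prop) (by fun_prop)

theorem poly_freeL {U V : α → List Unit} (hU : Poly U) (hV : Poly V) :
    Poly (fun a => freeL (U a).length (V a).length) := by
  unfold freeL
  refine Poly.filter (poly_nodesL hU hV) ?_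
  exact poly_freeB (by fun_prop) (by fun_prop) (by fun_prop)

theorem poly_cI {m n : α → ℕ} {v : α → ℕ × ℕ} (hm : Poly m) (hn : Poly n) (hv : Poly v) :
    Poly (fun a => cI (m a) (n a) (v a)) := by
  unfold cI
  fun_prop

theorem poly_rg {t : ℕ} {e : α → Cb} (he : Poly e) : Poly (fun a => rg t (e a)) := by
  unfold rg
  fun_prop

attribute [local fun_prop] poly_rg

theorem poly_P1 {U V : α → List Unit} (hU : Poly U) (hV : Poly V) :
    Poly (fun a => P1 (U a).length (V a).length) := by
  unfold P1
  refine Poly.append (NPC.Poly.map (poly_nodesL hU hV) ?_) (NPC.Poly.const _)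
  exact poly_cI (by fun_prop) (by fun_prop) (by fun_prop)

theorem poly_P2 {U V : α → List Unit} (hU : Poly U) (hV : Poly V) :
    Poly (fun a => P2 (U a).length (V a).length) := by
  unfold P2
  refine Poly.append (NPC.Poly.map (poly_nodesL hU hV) ?_) (NPC.Poly.map (poly_cabL hU hV) ?_)
  · fun_prop
  · fun_prop

theorem poly_P3 {U V : α → List Unit} (hU : Poly U) (hV : Poly V) :
    Poly (fun a => P3 (U a).length (V a).length) := by
  unfold P3 sreg
  refine NPC.Poly.map (Poly.append (NPC.Poly.const _) (NPC.Poly.map (poly_nodesL hU hV) ?_)) ?_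
  · fun_prop
  · fun_prop

theorem poly_P4 {U V : α → List Unit} (hU : Poly U) (hV : Poly V) :
    Poly (fun a => P4 (U a).length (V a).length) := by
  unfold P4
  refine NPC.Poly.map (poly_cabL hU hV) ?_
  fun_prop

theorem poly_P5 {U V : α → List Unit} (hU : Poly U) (hV : Poly V) :
    Poly (fun a => P5 (U a).length (V a).length) := by
  unfold P5
  refine NPC.Poly.map (poly_cabL hU hV) ?_
  fun_prop

theorem poly_rowsL {U V : α → List Unit} (hU : Poly U) (hV : Poly V) :
    Poly (fun a => rowsL (U a).length (V a).length) := by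
  unfold rowsL
  refine Poly.append (NPC.Poly.map (R671.poly_product (poly_freeL hU hV) (NPC.Poly.const _)) ?_)
    (NPC.Poly.map (poly_cabL hU hV) ?_)
  · fun_prop
  · fun_prop

theorem poly_ereg1 {v : α → (ℕ × ℕ) × ℕ} {e : α → Cb} (hv : Poly v) (he : Poly e) :
    Poly (fun a => ereg1 (v a) (e a)) := by
  unfold ereg1
  fun_prop

attribute [local fun_prop] poly_ereg1

theorem poly_ereg {ρ : α → Rw} {e : α → Cb} (hρ : Poly ρ) (he : Poly e) :
    Poly (fun a => ereg (ρ a) (e a)) := by
  unfold ereg
  fun_prop

theorem poly_rreg {m n : α → ℕ} {ρ : α → Rw} (hm : Poly m) (hn : Poly n) (hρ : Poly ρ) :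
    Poly (fun a => rreg (m a) (n a) (ρ a)) := by
  unfold rreg
  fun_prop

theorem poly_P6 {U V : α → List Unit} (hU : Poly U) (hV : Poly V) :
    Poly (fun a => P6 (U a).length (V a).length) := by
  unfold P6
  have hr := poly_rowsL hU hV
  have hc := poly_cabL hU hV
  refine Poly.append (Poly.flatMap (Poly.zipIdx hr) (NPC.Poly.map ?_ ?_))
    (NPC.Poly.map (Poly.zipIdx hr) ?_)
  · exact Poly.zipIdx (poly_cabL (U := fun x : α × (Rw × ℕ) => U x.1)
      (V := fun x : α × (Rw × ℕ) => V x.1) (by fun_prop) (by fun_prop))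
  · refine pInstr _ (by fun_prop) (poly_ereg (by fun_prop) (by fun_prop)) (by fun_prop)
  · refine pInstr _ (by fun_prop) (poly_rreg (by fun_prop) (by fun_prop) (by fun_prop))
      (by fun_prop)

theorem poly_P7 {U V : α → List Unit} (hU : Poly U) (hV : Poly V) :
    Poly (fun a => P7 (U a).length (V a).length) := by
  unfold P7 aux
  have hn := poly_nodesL hU hV
  have hc := poly_cabL hU hV
  refine NPC.Poly.map (Poly.append (NPC.Poly.map hn ?_) (Poly.append (NPC.Poly.map hn ?_)
    (Poly.append (NPC.Poly.map hc ?_) (Poly.append (NPC.Poly.map hc ?_) (Poly.append (NPC.Poly.map hc ?_)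
      (NPC.Poly.const _)))))) ?_
  all_goals fun_prop

theorem poly_prog {U V : α → List Unit} (hU : Poly U) (hV : Poly V) :
    Poly (fun a => prog (U a).length (V a).length) :=
  Poly.append (poly_P1 hU hV) (Poly.append (poly_P2 hU hV) (Poly.append (poly_P3 hU hV)
    (Poly.append (poly_P4 hU hV) (Poly.append (poly_P5 hU hV)
      (Poly.append (poly_P6 hU hV) (poly_P7 hU hV))))))

/-- the reduction applied to an algorithm -/
def redAlg (α : Alg) : Alg := fun m n h =>
  if h = [] then (prog m n ++ (α (rowsL m n).length (cabL m n).length []).1,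
    (α (rowsL m n).length (cabL m n).length []).2)
  else α (rowsL m n).length (cabL m n).length h

theorem redAlg_eq (α : Alg) (m n : ℕ) :
    redAlg α m n = pre (prog m n) (α (rowsL m n).length (cabL m n).length) := rfl

theorem redAlg_free {α : Alg} (h : OracleFree α) : OracleFree (redAlg α) := by
  intro m n h' w
  unfold redAlg
  split_ifs
  · exact h _ _ _ _
  · exact h _ _ _ _

theorem redAlg_control {β : Alg} (h : PolyControl β) : PolyControl (redAlg β) := by
  have h1 : Poly (fun p : HistIn => β p.1.1.length p.1.2.length p.2) := t_COMP2 _ _ _ h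
  refine t_COMP _ _ _ ?_
  have hU : Poly (fun p : HistIn => p.1.1) := by fun_prop
  have hV : Poly (fun p : HistIn => p.1.2) := by fun_prop
  have hr : Poly (fun p : HistIn => (rowsL p.1.1.length p.1.2.length).map (fun _ => ())) :=
    NPC.Poly.map (poly_rowsL hU hV) (NPC.Poly.const _)
  have hc : Poly (fun p : HistIn => (cabL p.1.1.length p.1.2.length).map (fun _ => ())) :=
    NPC.Poly.map (poly_cabL hU hV) (NPC.Poly.const _)
  have h2 : Poly (fun p : HistIn => β (rowsL p.1.1.length p.1.2.length).length
      (cabL p.1.1.length p.1.2.length).length p.2) := by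
    have h3 : Poly (fun p : HistIn => ((((rowsL p.1.1.length p.1.2.length).map (fun _ => ()),
      (cabL p.1.1.length p.1.2.length).map (fun _ => ())), p.2) : HistIn)) :=
      Poly.pair (Poly.pair hr hc) (by fun_prop)
    refine (h1.comp h3).congr fun p => ?_
    simp only [List.length_map]
  have h2' : Poly (fun p : HistIn => β (rowsL p.1.1.length p.1.2.length).length
      (cabL p.1.1.length p.1.2.length).length []) := by
    have h3 : Poly (fun p : HistIn => ((((rowsL p.1.1.length p.1.2.length).map (fun _ => ()),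
      (cabL p.1.1.length p.1.2.length).map (fun _ => ())), []) : HistIn)) :=
      Poly.pair (Poly.pair hr hc) (NPC.Poly.const _)
    refine (h1.comp h3).congr fun p => ?_
    simp only [List.length_map]
  have h4 : Poly (fun p : HistIn => decide (p.2 = [])) := by fun_prop
  unfold redAlg
  refine Poly.ite h4 (Poly.pair (Poly.append (poly_prog hU hV) (Poly.fst h2')) (Poly.snd h2')) h2

end Pool.Agent.U17.PN
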