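import Mathlib

/-!
# Plane webs and grid nets
-/

set_option autoImplicit false

namespace Pool.Agent.U17.PN

/-- A plane web of cables. The nodes are labelled by pairs of natural numbers, and `pos v` is the
position of the node `v` in the plane. The nodes in `free` are free to move, all others are fixed.
A cable joins two nodes. The force `load v` acts on the node `v`. -/
structure Web where
  /-- positions of the nodes -/
  pos : ℕ × ℕ → ℝ × ℝ
  /-- the free nodes -/
  free : Finset (ℕ × ℕ)
  /-- the cables -/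
  cables : Finset ((ℕ × ℕ) × (ℕ × ℕ))
  /-- the load -/
  load : ℕ × ℕ → ℝ × ℝ

/-- The force exerted by the cable `e` on the node `v`, if the tension of `e` is equal to the length
of `e`. It is directed from `v` to the other end of `e`, and it is zero if `v` is not an end of
`e`. -/
def Web.pull (P : Web) (e : (ℕ × ℕ) × (ℕ × ℕ)) (v : ℕ × ℕ) : ℝ × ℝ :=
  (if e.1 = v then P.pos e.2 - P.pos v else 0) + (if e.2 = v then P.pos e.1 - P.pos v else 0)

/-- The web carries the load: there are tensions of the cables, `ω e ≥ 0` times the length of the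
cable `e`, such that at every free node the sum of all forces is zero. -/
def Web.Carries (P : Web) : Prop :=
  ∃ ω : (ℕ × ℕ) × (ℕ × ℕ) → ℝ, (∀ e ∈ P.cables, 0 ≤ ω e) ∧
    ∀ v ∈ P.free, ∑ e ∈ P.cables, ω e • P.pull e v + P.load v = 0

/-- Grid nets. The node `(r, j)` has the position `(x r j, r)`, where `x r j` is increasing in `j`.
The nodes `(r, j)` with `1 ≤ r ≤ R` and `1 ≤ j ≤ C` are free. Each of them is joined to
`(r - 1, j)` and `(r + 1, j)`, and to its neighbours `(r, j - 1)` and `(r, j + 1)` in the row `r`;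
but the cable at the left end of a row is present only if the row is in `left`, and the cable at
the right end only if it is in `right`. Apart from these nodes only `(R + 1, t)` is free. There is
only one load, the unit force `(0, 1)` on `(R + 1, t)`, which pulls at the cable from `(R, t)`
to `(R + 1, t)` in the direction of this cable. -/
def GridNet (P : Web) : Prop :=
  ∃ (R C t : ℕ) (x : ℕ → ℕ → ℝ) (left right : Set ℕ),
    1 ≤ t ∧ t ≤ C ∧ (∀ r j, r ≤ R + 1 → j ≤ C → x r j < x r (j + 1)) ∧
    (∀ r j, P.pos (r, j) = (x r j, (r : ℝ))) ∧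
    P.free = insert (R + 1, t) (Finset.Icc 1 R ×ˢ Finset.Icc 1 C) ∧
    (∀ e, e ∈ P.cables ↔
      (∃ r j, r ≤ R ∧ 1 ≤ j ∧ j ≤ C ∧ e = ((r, j), (r + 1, j))) ∨
      (∃ r j, 1 ≤ r ∧ r ≤ R ∧ j ≤ C ∧ (j = 0 → r ∈ left) ∧ (j = C → r ∈ right) ∧
        e = ((r, j), (r, j + 1)))) ∧
    x (R + 1) t = x R t ∧ P.load (R + 1, t) = (0, 1) ∧ ∀ v, v ≠ (R + 1, t) → P.load v = 0

/-- The signed coordinates of a vector. -/
def coord : Fin 4 → ℝ × ℝ → ℝ
  | 0, p => p.1
  | 1, p => -p.1
  | 2, p => p.2
  | 3, p => -p.2

/-- The coefficient of the unknown tension of the cable `e` in the conditions of equilibrium: the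
row `(v, s)` is the signed coordinate `s` of the equilibrium at the free node `v`, and the row of
a cable is the condition that its tension is not negative. -/
def Web.entry (P : Web) : ({v // v ∈ P.free} × Fin 4) ⊕ {e // e ∈ P.cables} →
    {e // e ∈ P.cables} → ℝ
  | .inl (v, s), e => coord s (P.pull e v)
  | .inr e', e => if e = e' then 1 else 0

/-- The right-hand side of the conditions of equilibrium. -/
def Web.rhs (P : Web) : ({v // v ∈ P.free} × Fin 4) ⊕ {e // e ∈ P.cables} → ℝ
  | .inl (v, s) => -coord s (P.load v)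
  | .inr _ => 0

/-- The system of linear inequalities `A ω ≥ b` consists of the conditions of equilibrium of the
web (two opposite inequalities for each coordinate of the equilibrium at each free node, and
`ω e ≥ 0` for each cable), in any order of the inequalities and of the cables. -/
def Web.System (P : Web) {m n : ℕ} (A : Matrix (Fin m) (Fin n) ℝ) (b : Fin m → ℝ) : Prop :=
  ∃ (r : Fin m ≃ ({v // v ∈ P.free} × Fin 4) ⊕ {e // e ∈ P.cables})
    (c : Fin n ≃ {e // e ∈ P.cables}),
    (∀ i j, A i j = P.entry (r i) (c j)) ∧ ∀ i, b i = P.rhs (r i)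

/-- The instances of the linear feasibility problem which are the conditions of equilibrium of a
grid net. -/
def NetSystem (m n : ℕ) (A : Matrix (Fin m) (Fin n) ℝ) (b : Fin m → ℝ) : Prop :=
  ∃ P : Web, GridNet P ∧ P.System A b

/-- The system of a web is solvable iff the web carries the load. -/
theorem system_iff (P : Web) {m n : ℕ} (A : Matrix (Fin m) (Fin n) ℝ) (b : Fin m → ℝ)
    (h : P.System A b) : (∃ x : Fin n → ℝ, b ≤ A.mulVec x) ↔ P.Carries := by
  classical
  obtain ⟨r, c, hA, hb⟩ := h
  have hsum : ∀ (ω : (ℕ × ℕ) × (ℕ × ℕ) → ℝ) (i : Fin m),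
      A.mulVec (fun j => ω (c j)) i = ∑ e : {e // e ∈ P.cables}, P.entry (r i) e * ω e := by
    intro ω i
    rw [Matrix.mulVec, dotProduct, ← c.sum_comp]
    exact Finset.sum_congr rfl fun j _ => by rw [hA]
  have hpull : ∀ (ω : (ℕ × ℕ) × (ℕ × ℕ) → ℝ) (v : {v // v ∈ P.free}) (s : Fin 4),
      ∑ e : {e // e ∈ P.cables}, P.entry (.inl (v, s)) e * ω e =
        coord s (∑ e ∈ P.cables, ω e • P.pull e v) := by
    intro ω v s
    have h1 : ∀ s, ∑ e : {e // e ∈ P.cables}, P.entry (.inl (v, s)) e * ω e =
        ∑ e ∈ P.cables, ω e * coord s (P.pull e v) := by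
      intro s
      rw [← Finset.sum_coe_sort P.cables (fun e => ω e * coord s (P.pull e v))]
      exact Finset.sum_congr rfl fun e _ => by rw [mul_comm]; rfl
    rw [h1]
    have h2 : (∑ e ∈ P.cables, ω e • P.pull e v).1 = ∑ e ∈ P.cables, ω e * (P.pull e v).1 := by
      rw [Prod.fst_sum]
      rfl
    have h3 : (∑ e ∈ P.cables, ω e • P.pull e v).2 = ∑ e ∈ P.cables, ω e * (P.pull e v).2 := by
      rw [Prod.snd_sum]
      rfl
    fin_cases s
    · exact h2.symm
    · show _ = -(∑ e ∈ P.cables, ω e • P.pull e v).1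
      rw [h2, ← Finset.sum_neg_distrib]
      exact Finset.sum_congr rfl fun e _ => mul_neg _ _
    · exact h3.symm
    · show _ = -(∑ e ∈ P.cables, ω e • P.pull e v).2
      rw [h3, ← Finset.sum_neg_distrib]
      exact Finset.sum_congr rfl fun e _ => mul_neg _ _
  have hone : ∀ (ω : (ℕ × ℕ) × (ℕ × ℕ) → ℝ) (e' : {e // e ∈ P.cables}),
      ∑ e : {e // e ∈ P.cables}, P.entry (.inr e') e * ω e = ω e' := by
    intro ω e'
    have h1 : ∀ e : {e // e ∈ P.cables}, P.entry (.inr e') e * ω e =
        if e = e' then ω e' else 0 := by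
      intro e
      show (if e = e' then (1 : ℝ) else 0) * ω e = _
      split_ifs with h
      · rw [h, one_mul]
      · rw [zero_mul]
    simp_rw [h1]
    simp
  constructor
  · rintro ⟨x, hx⟩
    let ω : (ℕ × ℕ) × (ℕ × ℕ) → ℝ := fun e => if h : e ∈ P.cables then x (c.symm ⟨e, h⟩) else 0
    have hω : (fun j => ω (c j)) = x := by
      funext j
      show (if h : ((c j : {e // e ∈ P.cables}) : (ℕ × ℕ) × (ℕ × ℕ)) ∈ P.cables then
        x (c.symm ⟨c j, h⟩) else 0) = x j
      rw [dif_pos (c j).2]
      congr 1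
      exact c.symm_apply_apply j
    rw [← hω] at hx
    refine ⟨ω, fun e he => ?_, fun v hv => ?_⟩
    · have h1 := hx (r.symm (.inr ⟨e, he⟩))
      rw [hsum, hb, r.apply_symm_apply, hone] at h1
      exact h1
    · have key : ∀ s, -coord s (P.load v) ≤ coord s (∑ e ∈ P.cables, ω e • P.pull e v) := by
        intro s
        have h1 := hx (r.symm (.inl (⟨v, hv⟩, s)))
        rw [hsum, hb, r.apply_symm_apply, hpull] at h1
        exact h1
      have k0 := key 0
      have k1 := key 1
      have k2 := key 2
      have k3 := key 3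
      simp only [coord] at k0 k1 k2 k3
      refine Prod.ext ?_ ?_
      · show (∑ e ∈ P.cables, ω e • P.pull e v).1 + (P.load v).1 = 0
        linarith
      · show (∑ e ∈ P.cables, ω e • P.pull e v).2 + (P.load v).2 = 0
        linarith
  · rintro ⟨ω, h0, h1⟩
    refine ⟨fun j => ω (c j), fun i => ?_⟩
    rw [hsum, hb]
    rcases h2 : r i with ⟨v, s⟩ | e
    · rw [hpull]
      have h3 := h1 v v.2
      have h4 : ∑ e ∈ P.cables, ω e • P.pull e v = -P.load v := eq_neg_of_add_eq_zero_left h3
      rw [h4]
      show -coord s (P.load v) ≤ coord s (-P.load v)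
      apply le_of_eq
      fin_cases s <;> rfl
    · rw [hone]
      exact h0 e e.2

end Pool.Agent.U17.PN
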