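import Pool.Agent.H622R3.SM.Model

/-!
# Straight-line programs
-/

set_option autoImplicit false

namespace Pool.Agent.U17.PN

open Pool.Agent.H558R2 Pool.Agent.H622R3.SM

/-- the value computed by an instruction -/
noncomputable def ival (ρ : Reg → ℝ) (I : Instr) : ℝ := I.op.eval (ρ I.fst) (ρ I.snd)

/-- the final store -/
noncomputable def fin : List Instr → (Reg → ℝ) → (Reg → ℝ)
  | [], ρ => ρ
  | I :: P, ρ => fin P (Function.update ρ I.dst (ival ρ I))

/-- the numbers computed -/
noncomputable def outs : List Instr → (Reg → ℝ) → List ℝ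
  | [], _ => []
  | I :: P, ρ => ival ρ I :: outs P (Function.update ρ I.dst (ival ρ I))

theorem exec_eq (P : List Instr) (h : ∀ I ∈ P, I.op ≠ Op.div) (ρ : Reg → ℝ) :
    exec P ρ = some (fin P ρ, outs P ρ) := by
  induction P generalizing ρ with
  | nil => rfl
  | cons I P ih =>
    rw [exec, if_neg (fun h' => h I (List.mem_cons_self ..) h'.1),
      ih (fun J hJ => h J (List.mem_cons_of_mem _ hJ))]
    rfl

theorem exec_append (P Q : List Instr) (ρ : Reg → ℝ) : exec (P ++ Q) ρ =
    (exec P ρ).bind fun r => (exec Q r.1).map fun q => (q.1, r.2 ++ q.2) := by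
  induction P generalizing ρ with
  | nil =>
    simp only [List.nil_append, exec, Option.bind_some]
    cases exec Q ρ <;> rfl
  | cons I P ih =>
    rw [List.cons_append, exec, exec]
    split_ifs with h
    · rfl
    · rw [ih]
      cases exec P (Function.update ρ I.dst (I.op.eval (ρ I.fst) (ρ I.snd))) with
      | none => rfl
      | some r =>
        simp only [Option.bind_some, Option.map_some]
        cases exec Q r.1 <;> rfl

theorem fin_append (P Q : List Instr) (ρ : Reg → ℝ) : fin (P ++ Q) ρ = fin Q (fin P ρ) := by
  induction P generalizing ρ with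
  | nil => rfl
  | cons I P ih => exact ih _

theorem outs_append (P Q : List Instr) (ρ : Reg → ℝ) :
    outs (P ++ Q) ρ = outs P ρ ++ outs Q (fin P ρ) := by
  induction P generalizing ρ with
  | nil => rfl
  | cons I P ih =>
    show ival ρ I :: outs (P ++ Q) _ = _
    rw [ih]
    rfl

theorem outs_length (P : List Instr) (ρ : Reg → ℝ) : (outs P ρ).length = P.length := by
  induction P generalizing ρ with
  | nil => rfl
  | cons I P ih =>
    show (outs P _).length + 1 = P.length + 1
    rw [ih]

/-- registers which are not written are not changed -/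
theorem fin_of_not (P : List Instr) (x : Reg) (h : ∀ I ∈ P, I.dst ≠ x) (ρ : Reg → ℝ) :
    fin P ρ x = ρ x := by
  induction P generalizing ρ with
  | nil => rfl
  | cons I P ih =>
    show fin P _ x = _
    rw [ih (fun J hJ => h J (List.mem_cons_of_mem _ hJ)),
      Function.update_of_ne (Ne.symm (h I (List.mem_cons_self ..)))]

theorem ival_congr (I : Instr) (ρ ρ' : Reg → ℝ) (h1 : ρ I.fst = ρ' I.fst)
    (h2 : ρ I.snd = ρ' I.snd) : ival ρ I = ival ρ' I := by
  unfold ival
  rw [h1, h2]

/-- Parallel assignment: no operand is a target, and two instructions with the same target are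
equal. -/
structure Par (P : List Instr) : Prop where
  fst : ∀ I ∈ P, ∀ J ∈ P, I.dst ≠ J.fst
  snd : ∀ I ∈ P, ∀ J ∈ P, I.dst ≠ J.snd
  inj : ∀ I ∈ P, ∀ J ∈ P, I.dst = J.dst → I = J

theorem Par.tail {I : Instr} {P : List Instr} (h : Par (I :: P)) : Par P :=
  ⟨fun J hJ K hK => h.fst J (List.mem_cons_of_mem _ hJ) K (List.mem_cons_of_mem _ hK),
    fun J hJ K hK => h.snd J (List.mem_cons_of_mem _ hJ) K (List.mem_cons_of_mem _ hK),
    fun J hJ K hK => h.inj J (List.mem_cons_of_mem _ hJ) K (List.mem_cons_of_mem _ hK)⟩

theorem fin_par (P : List Instr) (h : Par P) (ρ : Reg → ℝ) (I : Instr) (hI : I ∈ P) :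
    fin P ρ I.dst = ival ρ I := by
  induction P generalizing ρ with
  | nil => exact absurd hI (by simp)
  | cons J P ih =>
    show fin P (Function.update ρ J.dst (ival ρ J)) I.dst = _
    by_cases hIP : I ∈ P
    · rw [ih h.tail _ hIP]
      refine ival_congr _ _ _ ?_ ?_
      · exact Function.update_of_ne (Ne.symm (h.fst J (List.mem_cons_self ..) I hI)) _ _
      · exact Function.update_of_ne (Ne.symm (h.snd J (List.mem_cons_self ..) I hI)) _ _
    · have hIJ : I = J := (List.mem_cons.1 hI).resolve_right hIP
      subst hIJ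
      rw [fin_of_not, Function.update_self]
      intro K hK hd
      exact hIP ((h.inj K (List.mem_cons_of_mem _ hK) I hI hd) ▸ hK)

theorem outs_par (P : List Instr) (h : Par P) (ρ : Reg → ℝ) (v : ℝ) (hv : v ∈ outs P ρ) :
    ∃ I ∈ P, v = ival ρ I := by
  induction P generalizing ρ with
  | nil => exact absurd hv (by simp [outs])
  | cons J P ih =>
    rcases List.mem_cons.1 hv with rfl | hv
    · exact ⟨J, List.mem_cons_self .., rfl⟩
    · obtain ⟨I, hI, rfl⟩ := ih h.tail _ hv
      refine ⟨I, List.mem_cons_of_mem _ hI, ?_⟩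
      refine ival_congr _ _ _ ?_ ?_
      · exact Function.update_of_ne
          (Ne.symm (h.fst J (List.mem_cons_self ..) I (List.mem_cons_of_mem _ hI))) _ _
      · exact Function.update_of_ne
          (Ne.symm (h.snd J (List.mem_cons_self ..) I (List.mem_cons_of_mem _ hI))) _ _

/-- accumulation -/
theorem fin_acc (x : Reg) (L : List Reg) (hL : x ∉ L) (ρ : Reg → ℝ) :
    fin (L.map fun s => ⟨Op.add, x, x, s⟩) ρ x = ρ x + (L.map ρ).sum := by
  induction L generalizing ρ with
  | nil => simp [fin]
  | cons s L ih =>
    have hs : s ≠ x := fun h => hL (h ▸ List.mem_cons_self ..)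
    show fin (L.map fun s => ⟨Op.add, x, x, s⟩) (Function.update ρ x (ρ x + ρ s)) x = _
    rw [ih (fun h => hL (List.mem_cons_of_mem _ h)), Function.update_self, List.map_cons,
      List.sum_cons]
    have h1 : L.map (Function.update ρ x (ρ x + ρ s)) = L.map ρ :=
      List.map_congr_left fun y hy => Function.update_of_ne
        (fun h => hL (List.mem_cons_of_mem _ (by rw [← h]; exact hy))) _ _
    rw [h1]
    ring

theorem outs_acc (x : Reg) (L : List Reg) (hL : x ∉ L) (ρ : Reg → ℝ) (v : ℝ)
    (hv : v ∈ outs (L.map fun s => ⟨Op.add, x, x, s⟩) ρ) :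
    ∃ L' L'', L = L' ++ L'' ∧ v = ρ x + (L'.map ρ).sum := by
  induction L generalizing ρ with
  | nil => exact absurd hv (by simp [outs])
  | cons s L ih =>
    rcases List.mem_cons.1 hv with rfl | hv
    · refine ⟨[s], L, rfl, ?_⟩
      show ρ x + ρ s = _
      simp
    · obtain ⟨L', L'', h1, h2⟩ := ih (fun h => hL (List.mem_cons_of_mem _ h)) _ hv
      refine ⟨s :: L', L'', by rw [h1]; rfl, ?_⟩
      rw [h2]
      show Function.update ρ x (ρ x + ρ s) x + _ = _
      rw [Function.update_self]
      have h3 : L'.map (Function.update ρ x (ival ρ ⟨Op.add, x, x, s⟩)) = L'.map ρ :=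
        List.map_congr_left fun y hy => Function.update_of_ne
          (fun h => hL (List.mem_cons_of_mem _ (by rw [h1, ← h]; exact List.mem_append_left _ hy)))
          _ _
      have h4 : L'.map (Function.update ρ ((⟨Op.add, x, x, s⟩ : Instr)).dst
          (ival ρ ⟨Op.add, x, x, s⟩)) = L'.map ρ := h3
      rw [h4, List.map_cons, List.sum_cons]
      ring

/-! ### Runs -/

theorem run_congr (O : Set (List Bool)) (α β : List Outcome → List Instr × Test)
    (hαβ : ∀ h, h ≠ [] → α h = β h) (k : ℕ) : ∀ (h : List Outcome) (ρ : Reg → ℝ), h ≠ [] →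
      run O α k h ρ = run O β k h ρ := by
  induction k with
  | zero => intro h ρ _; rfl
  | succ k ih =>
    intro h ρ hh
    rw [run, run, hαβ h hh]
    congr 1
    funext r
    cases (β h).2 with
    | answer a => rfl
    | sign x =>
      simp only
      rw [ih _ _ (by simp)]
    | ask w =>
      simp only
      rw [ih _ _ (by simp)]

theorem run_mono (O : Set (List Bool)) (α : List Outcome → List Instr × Test) {k k' : ℕ}
    (hk : k ≤ k') : ∀ (h : List Outcome) (ρ : Reg → ℝ) (q : Bool × List ℝ × ℕ),
      run O α k h ρ = some q → run O α k' h ρ = some q := by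
  induction k generalizing k' with
  | zero => intro h ρ q hq; exact absurd hq (by simp [run])
  | succ k ih =>
    obtain ⟨k', rfl⟩ : ∃ j, k' = j + 1 := ⟨k' - 1, by omega⟩
    intro h ρ q hq
    rw [run] at hq ⊢
    cases he : exec (α h).1 ρ with
    | none => rw [he] at hq; exact absurd hq (by simp)
    | some r =>
      rw [he] at hq
      simp only [Option.bind_some] at hq ⊢
      cases ht : (α h).2 with
      | answer a => rw [ht] at hq; exact hq
      | sign x =>
        rw [ht] at hq
        simp only [Option.map_eq_some_iff] at hq ⊢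
        obtain ⟨q', h1, h2⟩ := hq
        exact ⟨q', ih (by omega) _ _ _ h1, h2⟩
      | ask w =>
        rw [ht] at hq
        simp only [Option.map_eq_some_iff] at hq ⊢
        obtain ⟨q', h1, h2⟩ := hq
        exact ⟨q', ih (by omega) _ _ _ h1, h2⟩

/-- An initial program in front of an algorithm. -/
def pre (P : List Instr) (α : List Outcome → List Instr × Test) :
    List Outcome → List Instr × Test :=
  fun h => if h = [] then (P ++ (α []).1, (α []).2) else α h

theorem run_pre (O : Set (List Bool)) (P : List Instr) (hP : ∀ I ∈ P, I.op ≠ Op.div)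
    (α : List Outcome → List Instr × Test) (k : ℕ) (ρ : Reg → ℝ) (q : Bool × List ℝ × ℕ)
    (hq : run O α k [] (fin P ρ) = some q) :
    run O (pre P α) k [] ρ = some (q.1, outs P ρ ++ q.2.1, P.length + q.2.2) := by
  cases k with
  | zero => exact absurd hq (by simp [run])
  | succ k =>
    rw [run] at hq ⊢
    have h1 : (pre P α) [] = (P ++ (α []).1, (α []).2) := if_pos rfl
    rw [h1]
    simp only
    rw [exec_append, exec_eq P hP]
    simp only [Option.bind_some]
    cases he : exec (α []).1 (fin P ρ) with
    | none => rw [he] at hq; exact absurd hq (by simp)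
    | some r =>
      rw [he] at hq
      simp only [Option.bind_some, Option.map_some] at hq ⊢
      cases ht : (α []).2 with
      | answer a =>
        rw [ht] at hq
        simp only [Option.some.injEq] at hq ⊢
        rw [← hq]
        simp [outs_length]
      | sign x =>
        rw [ht] at hq
        simp only [Option.map_eq_some_iff] at hq ⊢
        obtain ⟨q', h2, h3⟩ := hq
        refine ⟨q', ?_, ?_⟩
        · rw [run_congr O (pre P α) α (fun h hh => if_neg hh) k _ _ (by simp)]
          exact h2
        · rw [← h3]
          simp [outs_length, Nat.add_assoc]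
      | ask w =>
        rw [ht] at hq
        simp only [Option.map_eq_some_iff] at hq ⊢
        obtain ⟨q', h2, h3⟩ := hq
        refine ⟨q', ?_, ?_⟩
        · rw [run_congr O (pre P α) α (fun h hh => if_neg hh) k _ _ (by simp)]
          exact h2
        · rw [← h3]
          simp [outs_length, Nat.add_assoc]

end Pool.Agent.U17.PN
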