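import Pool.Agent.U17.PN.Defs

/-!
# The grid net of a system of linear inequalities
-/

set_option autoImplicit false

namespace Pool.Agent.U17.PN

open Finset

/-! ### The forces at a node of a grid -/

/-- the tension, zero if the cable is absent -/
def wt (P : Web) (ω : (ℕ × ℕ) × (ℕ × ℕ) → ℝ) (e : (ℕ × ℕ) × (ℕ × ℕ)) : ℝ :=
  if e ∈ P.cables then ω e else 0

theorem sum4 (P : Web) (hP : ∀ e ∈ P.cables, e.2 = (e.1.1 + 1, e.1.2) ∨ e.2 = (e.1.1, e.1.2 + 1))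
    (ω : (ℕ × ℕ) × (ℕ × ℕ) → ℝ) (r j : ℕ) :
    ∑ e ∈ P.cables, ω e • P.pull e (r + 1, j + 1) =
      wt P ω ((r + 1, j + 1), (r + 2, j + 1)) • (P.pos (r + 2, j + 1) - P.pos (r + 1, j + 1)) +
      (wt P ω ((r, j + 1), (r + 1, j + 1)) • (P.pos (r, j + 1) - P.pos (r + 1, j + 1)) +
      (wt P ω ((r + 1, j + 1), (r + 1, j + 2)) • (P.pos (r + 1, j + 2) - P.pos (r + 1, j + 1)) +
      wt P ω ((r + 1, j), (r + 1, j + 1)) • (P.pos (r + 1, j) - P.pos (r + 1, j + 1)))) := by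
  classical
  set S : Finset ((ℕ × ℕ) × (ℕ × ℕ)) := {((r + 1, j + 1), (r + 2, j + 1)),
    ((r, j + 1), (r + 1, j + 1)), ((r + 1, j + 1), (r + 1, j + 2)),
    ((r + 1, j), (r + 1, j + 1))} with hS
  have h1 : ∑ e ∈ P.cables, ω e • P.pull e (r + 1, j + 1) =
      ∑ e ∈ S, wt P ω e • P.pull e (r + 1, j + 1) := by
    have h2 : ∑ e ∈ P.cables, ω e • P.pull e (r + 1, j + 1) =
        ∑ e ∈ P.cables ∪ S, wt P ω e • P.pull e (r + 1, j + 1) := by
      refine Finset.sum_subset_zero_on_sdiff Finset.subset_union_left ?_ ?_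
      · intro e he
        rw [Finset.mem_sdiff] at he
        rw [wt, if_neg he.2, zero_smul]
      · intro e he
        rw [wt, if_pos he]
    rw [h2]
    symm
    refine Finset.sum_subset Finset.subset_union_right ?_
    intro e he hn
    by_cases hc : e ∈ P.cables
    · have h3 : P.pull e (r + 1, j + 1) = 0 := by
        obtain ⟨⟨a, a'⟩, ⟨b, b'⟩⟩ := e
        have h4 := hP _ hc
        simp only [Prod.mk.injEq] at h4
        simp only [hS, Finset.mem_insert, Finset.mem_singleton, Prod.mk.injEq, not_or] at hn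
        rw [Web.pull, if_neg, if_neg, add_zero]
        · intro h5
          simp only [Prod.mk.injEq] at h5
          omega
        · intro h5
          simp only [Prod.mk.injEq] at h5
          omega
      rw [h3, smul_zero]
    · rw [wt, if_neg hc, zero_smul]
  rw [h1, hS, Finset.sum_insert, Finset.sum_insert, Finset.sum_insert, Finset.sum_singleton]
  · simp [Web.pull]
  · simp
  · simp
  · simp

/-! ### The net -/

/-- all nodes -/
def nodesL (m n : ℕ) : List (ℕ × ℕ) := List.range (2 * m + 5) ×ˢ List.range (2 * n + 5)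

/-- the test for cables -/
def cabB (m n : ℕ) (e : (ℕ × ℕ) × (ℕ × ℕ)) : Bool :=
  (decide (e.2 = (e.1.1 + 1, e.1.2)) && (decide (1 ≤ e.1.2) && decide (e.1.2 ≤ 2 * n + 3))) ||
  (decide (e.2 = (e.1.1, e.1.2 + 1)) && ((decide (1 ≤ e.1.1) && decide (e.1.1 ≤ 2 * m + 3)) &&
    ((!decide (e.1.2 = 0) || !decide (e.1.1 = 2 * m + 2)) &&
      (!decide (e.1.2 = 2 * n + 3) || (decide (e.1.1 % 2 = 1) || decide (e.1.1 = 2 * m + 2))))))

/-- the cables -/
def cabL (m n : ℕ) : List ((ℕ × ℕ) × (ℕ × ℕ)) :=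
  (nodesL m n ×ˢ nodesL m n).filter (fun e => cabB m n e)

/-- the test for free nodes -/
def freeB (m n : ℕ) (v : ℕ × ℕ) : Bool :=
  ((decide (1 ≤ v.1) && decide (v.1 ≤ 2 * m + 3)) &&
    (decide (1 ≤ v.2) && decide (v.2 ≤ 2 * n + 3))) || decide (v = (2 * m + 4, 2 * n + 2))

/-- the free nodes -/
def freeL (m n : ℕ) : List (ℕ × ℕ) := (nodesL m n).filter (fun v => freeB m n v)

theorem mem_nodesL {m n r j : ℕ} : (r, j) ∈ nodesL m n ↔ r < 2 * m + 5 ∧ j < 2 * n + 5 := by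
  rw [nodesL, List.mem_product, List.mem_range, List.mem_range]

theorem mem_cabL {m n : ℕ} {e : (ℕ × ℕ) × (ℕ × ℕ)} : e ∈ cabL m n ↔
    (∃ r j, r ≤ 2 * m + 3 ∧ 1 ≤ j ∧ j ≤ 2 * n + 3 ∧ e = ((r, j), (r + 1, j))) ∨
    (∃ r j, 1 ≤ r ∧ r ≤ 2 * m + 3 ∧ j ≤ 2 * n + 3 ∧ (j = 0 → r ≠ 2 * m + 2) ∧
      (j = 2 * n + 3 → (r % 2 = 1 ∨ r = 2 * m + 2)) ∧ e = ((r, j), (r, j + 1))) := by
  obtain ⟨⟨a, a'⟩, ⟨b, b'⟩⟩ := e
  rw [cabL, List.mem_filter, List.mem_product, mem_nodesL, mem_nodesL]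
  simp only [cabB, Bool.or_eq_true, Bool.and_eq_true, Bool.not_eq_true', decide_eq_true_eq,
    decide_eq_false_iff_not, Prod.mk.injEq]
  constructor
  · rintro ⟨⟨⟨h1, h2⟩, ⟨h3, h4⟩⟩, (⟨⟨rfl, rfl⟩, h5, h6⟩ | ⟨⟨rfl, rfl⟩, ⟨h5, h6⟩, h7, h8⟩)⟩
    · exact Or.inl ⟨_, _, by omega, by omega, by omega, ⟨rfl, rfl⟩, rfl, rfl⟩
    · refine Or.inr ⟨_, _, by omega, by omega, by omega, ?_, ?_, ⟨rfl, rfl⟩, rfl, rfl⟩
      · intro h; rcases h7 with h7 | h7 <;> omega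
      · intro h; rcases h8 with h8 | h8 <;> omega
  · rintro (⟨r, j, h1, h2, h3, ⟨rfl, rfl⟩, rfl, rfl⟩ | ⟨r, j, h1, h2, h3, h4, h5, ⟨rfl, rfl⟩, rfl, rfl⟩)
    · exact ⟨⟨⟨by omega, by omega⟩, ⟨by omega, by omega⟩⟩, Or.inl ⟨⟨rfl, rfl⟩, by omega, by omega⟩⟩
    · refine ⟨⟨⟨by omega, by omega⟩, ⟨by omega, by omega⟩⟩, Or.inr ⟨⟨rfl, rfl⟩, ⟨by omega, by omega⟩,
        ?_, ?_⟩⟩
      · by_cases h : a' = 0
        · exact Or.inr (h4 h)
        · exact Or.inl h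
      · by_cases h : a' = 2 * n + 3
        · exact Or.inr (h5 h)
        · exact Or.inl h

theorem mem_freeL {m n : ℕ} {v : ℕ × ℕ} : v ∈ freeL m n ↔
    (1 ≤ v.1 ∧ v.1 ≤ 2 * m + 3 ∧ 1 ≤ v.2 ∧ v.2 ≤ 2 * n + 3) ∨ v = (2 * m + 4, 2 * n + 2) := by
  obtain ⟨r, j⟩ := v
  rw [freeL, List.mem_filter, mem_nodesL]
  simp only [freeB, Bool.or_eq_true, Bool.and_eq_true, decide_eq_true_eq, Prod.mk.injEq]
  omega

theorem nodup_nodesL (m n : ℕ) : (nodesL m n).Nodup :=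
  List.Nodup.product List.nodup_range List.nodup_range

theorem nodup_cabL (m n : ℕ) : (cabL m n).Nodup :=
  ((nodup_nodesL m n).product (nodup_nodesL m n)).filter _

theorem nodup_freeL (m n : ℕ) : (freeL m n).Nodup := (nodup_nodesL m n).filter _

section

variable (m n : ℕ) (cf : ℕ → ℕ → ℝ)

/-- the width of a column -/
noncomputable def wd : ℝ := 3 + ((nodesL m n).map (fun v => cf v.1 v.2 * cf v.1 v.2)).sum

/-- the positions -/
noncomputable def px (r j : ℕ) : ℝ := (j : ℝ) * wd m n cf - cf r j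

/-- the net -/
noncomputable def netWeb : Web where
  pos := fun v => (px m n cf v.1 v.2, (v.1 : ℝ))
  free := (freeL m n).toFinset
  cables := (cabL m n).toFinset
  load := fun v => if v = (2 * m + 4, 2 * n + 2) then (0, 1) else 0

theorem cf_lt_wd {r j : ℕ} (h : (r, j) ∈ nodesL m n) : 2 * |cf r j| ≤ wd m n cf - 2 := by
  have h1 : cf r j * cf r j ≤ ((nodesL m n).map (fun v => cf v.1 v.2 * cf v.1 v.2)).sum := by
    refine List.single_le_sum (l := (nodesL m n).map (fun v => cf v.1 v.2 * cf v.1 v.2)) ?_ _ ?_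
    · intro x hx
      rw [List.mem_map] at hx
      obtain ⟨v, _, rfl⟩ := hx
      exact mul_self_nonneg _
    · rw [List.mem_map]
      exact ⟨(r, j), h, rfl⟩
  unfold wd
  have h2 := abs_mul_abs_self (cf r j)
  nlinarith [sq_nonneg (|cf r j| - 1)]

theorem px_lt {r j : ℕ} (hr : r ≤ 2 * m + 4) (hj : j ≤ 2 * n + 3) :
    px m n cf r j < px m n cf r (j + 1) := by
  have h1 := cf_lt_wd m n cf (r := r) (j := j) (mem_nodesL.2 ⟨by omega, by omega⟩)
  have h2 := cf_lt_wd m n cf (r := r) (j := j + 1) (mem_nodesL.2 ⟨by omega, by omega⟩)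
  have h3 := neg_abs_le (cf r j)
  have h4 := le_abs_self (cf r (j + 1))
  unfold px
  push_cast
  linarith

/-- what is needed of the coefficients -/
structure Coef (a : ℕ → ℕ → ℝ) (b : ℕ → ℝ) : Prop where
  zero : ∀ r j, (r % 2 = 1 ∨ r = 0 ∨ r = 2 * m + 4) → cf r j = 0
  left : ∀ i, i ≤ m → cf (2 * i + 2) 1 = -1
  right : ∀ i, i ≤ m → cf (2 * i + 2) (2 * n + 3) = 1
  pos : ∀ i l, i < m → l < n → cf (2 * i + 2) (l + 2) = a i l
  neg : ∀ i l, i < m → l < n → cf (2 * i + 2) (n + l + 2) = -a i l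
  rhs : ∀ i, i < m → cf (2 * i + 2) (2 * n + 2) = -b i
  tie : ∀ j, 2 ≤ j → j ≤ 2 * n + 2 → cf (2 * m + 2) j = 0

variable {m n cf} {a : ℕ → ℕ → ℝ} {b : ℕ → ℝ}

theorem netWeb_grid (h : Coef m n cf a b) : GridNet (netWeb m n cf) := by
  refine ⟨2 * m + 3, 2 * n + 3, 2 * n + 2, px m n cf, {r | r ≠ 2 * m + 2},
    {r | r % 2 = 1 ∨ r = 2 * m + 2}, by omega, by omega, ?_, fun r j => rfl, ?_, ?_, ?_, ?_, ?_⟩
  · intro r j hr hj
    exact px_lt m n cf hr hj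
  · ext v
    show v ∈ (freeL m n).toFinset ↔ _
    rw [List.mem_toFinset, mem_freeL]
    simp only [Finset.mem_insert, Finset.mem_product, Finset.mem_Icc]
    tauto
  · intro e
    show e ∈ (cabL m n).toFinset ↔ _
    rw [List.mem_toFinset, mem_cabL]
    rfl
  · unfold px
    rw [h.zero _ _ (Or.inr (Or.inr rfl)), h.zero _ _ (Or.inl (by omega))]
  · exact if_pos rfl
  · intro v hv
    exact if_neg hv

theorem net_step : ∀ e ∈ (netWeb m n cf).cables,
    e.2 = (e.1.1 + 1, e.1.2) ∨ e.2 = (e.1.1, e.1.2 + 1) := by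
  intro e he
  change e ∈ (cabL m n).toFinset at he
  rw [List.mem_toFinset, mem_cabL] at he
  rcases he with ⟨r, j, _, _, _, rfl⟩ | ⟨r, j, _, _, _, _, _, rfl⟩
  · exact Or.inl rfl
  · exact Or.inr rfl

theorem net_sum (ω : (ℕ × ℕ) × (ℕ × ℕ) → ℝ) (r j : ℕ) :
    (∑ e ∈ (netWeb m n cf).cables, ω e • (netWeb m n cf).pull e (r + 1, j + 1)).1 =
      wt (netWeb m n cf) ω ((r + 1, j + 1), (r + 2, j + 1)) *
        (px m n cf (r + 2) (j + 1) - px m n cf (r + 1) (j + 1)) +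
      (wt (netWeb m n cf) ω ((r, j + 1), (r + 1, j + 1)) *
        (px m n cf r (j + 1) - px m n cf (r + 1) (j + 1)) +
      (wt (netWeb m n cf) ω ((r + 1, j + 1), (r + 1, j + 2)) *
        (px m n cf (r + 1) (j + 2) - px m n cf (r + 1) (j + 1)) +
      wt (netWeb m n cf) ω ((r + 1, j), (r + 1, j + 1)) *
        (px m n cf (r + 1) j - px m n cf (r + 1) (j + 1)))) ∧
    (∑ e ∈ (netWeb m n cf).cables, ω e • (netWeb m n cf).pull e (r + 1, j + 1)).2 =
      wt (netWeb m n cf) ω ((r + 1, j + 1), (r + 2, j + 1)) -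
      wt (netWeb m n cf) ω ((r, j + 1), (r + 1, j + 1)) := by
  rw [sum4 _ net_step]
  constructor
  · simp only [Prod.fst_add, Prod.smul_fst, smul_eq_mul]
    rfl
  · simp only [Prod.snd_add, Prod.smul_snd, smul_eq_mul]
    simp only [netWeb, Prod.snd_sub]
    push_cast
    ring

end

end Pool.Agent.U17.PN
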