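import Pool.Agent.U17.PN.Geo

/-!
# The grid net carries the load iff the system is solvable
-/

set_option autoImplicit false

namespace Pool.Agent.U17.PN

open Finset

theorem split_sum (n : ℕ) (f : ℕ → ℝ) : ∑ j ∈ range (2 * n + 3), f j =
    f 0 + ∑ l ∈ range n, f (l + 1) + ∑ l ∈ range n, f (n + l + 1) + f (2 * n + 1) +
      f (2 * n + 2) := by
  rw [Finset.sum_range_succ, Finset.sum_range_succ]
  have h1 : ∑ j ∈ range (2 * n + 1), f j =
      f 0 + ∑ l ∈ range n, f (l + 1) + ∑ l ∈ range n, f (n + l + 1) := by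
    rw [show 2 * n + 1 = n + n + 1 by omega, Finset.sum_range_succ', Finset.sum_range_add]
    ring
  rw [h1]

section

variable {m n : ℕ} {cf : ℕ → ℕ → ℝ} {a : ℕ → ℕ → ℝ} {b : ℕ → ℝ}

theorem mem_net {e : (ℕ × ℕ) × (ℕ × ℕ)} : e ∈ (netWeb m n cf).cables ↔ e ∈ cabL m n := by
  show e ∈ (cabL m n).toFinset ↔ _
  rw [List.mem_toFinset]

theorem mem_net_free {v : ℕ × ℕ} : v ∈ (netWeb m n cf).free ↔ v ∈ freeL m n := by
  show v ∈ (freeL m n).toFinset ↔ _
  rw [List.mem_toFinset]

theorem net_load {v : ℕ × ℕ} (h : v ≠ (2 * m + 4, 2 * n + 2)) : (netWeb m n cf).load v = 0 :=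
  if_neg h

theorem net_load' : (netWeb m n cf).load (2 * m + 4, 2 * n + 2) = (0, 1) := if_pos rfl

theorem vert_mem {r j : ℕ} (hr : r ≤ 2 * m + 3) (hj : j < 2 * n + 3) :
    ((r, j + 1), (r + 1, j + 1)) ∈ cabL m n :=
  mem_cabL.2 (Or.inl ⟨r, j + 1, hr, by omega, by omega, rfl⟩)

theorem vert_not {r j : ℕ} (hr : 2 * m + 3 < r) : ((r, j), (r + 1, j)) ∉ cabL m n := by
  rw [mem_cabL]
  rintro (⟨r', j', h1, h2, h3, h4⟩ | ⟨r', j', h1, h2, h3, h5, h6, h4⟩) <;>
  · simp only [Prod.mk.injEq] at h4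
    omega

theorem hor_mem {r j : ℕ} : ((r, j), (r, j + 1)) ∈ cabL m n ↔ 1 ≤ r ∧ r ≤ 2 * m + 3 ∧
    j ≤ 2 * n + 3 ∧ (j = 0 → r ≠ 2 * m + 2) ∧ (j = 2 * n + 3 → (r % 2 = 1 ∨ r = 2 * m + 2)) := by
  rw [mem_cabL]
  constructor
  · rintro (⟨r', j', h1, h2, h3, h4⟩ | ⟨r', j', h1, h2, h3, h5, h6, h4⟩)
    · simp only [Prod.mk.injEq] at h4
      omega
    · simp only [Prod.mk.injEq] at h4
      obtain ⟨⟨rfl, rfl⟩, -⟩ := h4
      exact ⟨h1, h2, h3, h5, h6⟩
  · rintro ⟨h1, h2, h3, h4, h5⟩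
    exact Or.inr ⟨r, j, h1, h2, h3, h4, h5, rfl⟩

theorem free_mem {r j : ℕ} (hr : r < 2 * m + 3) (hj : j < 2 * n + 3) :
    (r + 1, j + 1) ∈ freeL m n :=
  mem_freeL.2 (Or.inl ⟨by simp, by simp; omega, by simp, by simp; omega⟩)

/-- the second difference at a constraint row -/
theorem sd_main (h : Coef m n cf a b) {i j : ℕ} (_hi : i ≤ m) :
    px m n cf (2 * i + 3) j + px m n cf (2 * i + 1) j - 2 * px m n cf (2 * i + 2) j =
      2 * cf (2 * i + 2) j := by
  unfold px
  rw [h.zero _ _ (Or.inl (by omega)), h.zero (2 * i + 1) _ (Or.inl (by omega))]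
  ring

theorem carries_to (h : Coef m n cf a b) (hc : (netWeb m n cf).Carries) :
    ∃ x : ℕ → ℝ, ∀ i < m, b i ≤ ∑ l ∈ range n, a i l * x l := by
  obtain ⟨ω, h0, h1⟩ := hc
  set P := netWeb m n cf with hP
  -- nonnegative
  have hw : ∀ e, 0 ≤ wt P ω e := by
    intro e
    unfold wt
    split_ifs with he
    · exact h0 e he
    · exact le_rfl
  -- the equations
  have heq : ∀ r j, r < 2 * m + 3 → j < 2 * n + 3 →
      wt P ω ((r + 1, j + 1), (r + 2, j + 1)) *
        (px m n cf (r + 2) (j + 1) - px m n cf (r + 1) (j + 1)) +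
      (wt P ω ((r, j + 1), (r + 1, j + 1)) *
        (px m n cf r (j + 1) - px m n cf (r + 1) (j + 1)) +
      (wt P ω ((r + 1, j + 1), (r + 1, j + 2)) *
        (px m n cf (r + 1) (j + 2) - px m n cf (r + 1) (j + 1)) +
      wt P ω ((r + 1, j), (r + 1, j + 1)) *
        (px m n cf (r + 1) j - px m n cf (r + 1) (j + 1)))) = 0 ∧
      wt P ω ((r + 1, j + 1), (r + 2, j + 1)) = wt P ω ((r, j + 1), (r + 1, j + 1)) := by
    intro r j hr hj
    have h2 := h1 (r + 1, j + 1) (mem_net_free.2 (free_mem hr hj))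
    rw [net_load (by simp only [ne_eq, Prod.mk.injEq]; omega), add_zero] at h2
    obtain ⟨h3, h4⟩ := net_sum (m := m) (n := n) (cf := cf) ω r j
    rw [← hP, h2] at h3 h4
    exact ⟨h3.symm, (sub_eq_zero.1 h4.symm)⟩
  have hz : ∀ j, j < 2 * n + 3 → ∀ r, r ≤ 2 * m + 3 →
      wt P ω ((r, j + 1), (r + 1, j + 1)) = wt P ω ((0, j + 1), (1, j + 1)) := by
    intro j hj r
    induction r with
    | zero => intro _; rfl
    | succ r ih =>
      intro hr
      rw [(heq r j (by omega) hj).2, ih (by omega)]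
  set z : ℕ → ℝ := fun j => wt P ω ((0, j + 1), (1, j + 1)) with hzdef
  have hz0 : ∀ j, 0 ≤ z j := fun j => hw _
  -- the load
  have hzt : z (2 * n + 1) = 1 := by
    have h2 := h1 (2 * m + 4, 2 * n + 2) (mem_net_free.2 (mem_freeL.2 (Or.inr rfl)))
    obtain ⟨-, h4⟩ := net_sum (m := m) (n := n) (cf := cf) ω (2 * m + 3) (2 * n + 1)
    have h5 : (∑ e ∈ P.cables, ω e • P.pull e (2 * m + 4, 2 * n + 2)).2 + 1 = 0 := by
      have h6 := congrArg Prod.snd h2
      rw [net_load'] at h6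
      exact h6
    rw [← hP] at h4
    have h7 : wt P ω ((2 * m + 3 + 1, 2 * n + 1 + 1), (2 * m + 3 + 2, 2 * n + 1 + 1)) = 0 :=
      if_neg (fun h => vert_not (by omega) (mem_net.1 h))
    rw [h7, hz (2 * n + 1) (by omega) (2 * m + 3) le_rfl] at h4
    change (∑ e ∈ P.cables, ω e • P.pull e (2 * m + 4, 2 * n + 2)).2 = 0 - z (2 * n + 1) at h4
    rw [h4] at h5
    linarith
  -- the tensions in a row
  set T : ℕ → ℕ → ℝ := fun r j => wt P ω ((r, j), (r, j + 1)) *
    (px m n cf r (j + 1) - px m n cf r j) with hT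
  have hT0 : ∀ r j, r ≤ 2 * m + 4 → j ≤ 2 * n + 3 → 0 ≤ T r j := fun r j hr hj =>
    mul_nonneg (hw _) (sub_nonneg.2 (px_lt m n cf hr hj).le)
  have hTs : ∀ i, i ≤ m → ∀ j, j < 2 * n + 3 →
      T (2 * i + 2) (j + 1) = T (2 * i + 2) j - 2 * (cf (2 * i + 2) (j + 1) * z j) := by
    intro i hi j hj
    obtain ⟨h2, -⟩ := heq (2 * i + 1) j (by omega) hj
    have h3 : wt P ω ((2 * i + 1 + 1, j + 1), (2 * i + 1 + 2, j + 1)) = z j :=
      hz j hj (2 * i + 2) (by omega)
    have h4 : wt P ω ((2 * i + 1, j + 1), (2 * i + 1 + 1, j + 1)) = z j :=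
      hz j hj (2 * i + 1) (by omega)
    rw [h3, h4] at h2
    have h5 := sd_main h (i := i) (j := j + 1) hi
    show wt P ω ((2 * i + 2, j + 1), (2 * i + 2, j + 1 + 1)) *
      (px m n cf (2 * i + 2) (j + 1 + 1) - px m n cf (2 * i + 2) (j + 1)) =
      wt P ω ((2 * i + 2, j), (2 * i + 2, j + 1)) *
      (px m n cf (2 * i + 2) (j + 1) - px m n cf (2 * i + 2) j) - _
    have h6 : cf (2 * i + 2) (j + 1) = (px m n cf (2 * i + 3) (j + 1) +
      px m n cf (2 * i + 1) (j + 1) - 2 * px m n cf (2 * i + 2) (j + 1)) / 2 := by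
      rw [h5]; ring
    rw [h6]
    linear_combination h2
  have hTsum : ∀ i, i ≤ m → ∀ j, j ≤ 2 * n + 3 → T (2 * i + 2) j =
      T (2 * i + 2) 0 - 2 * ∑ l ∈ range j, cf (2 * i + 2) (l + 1) * z l := by
    intro i hi j
    induction j with
    | zero => intro _; simp
    | succ j ih =>
      intro hj
      rw [hTs i hi j (by omega), ih (by omega), Finset.sum_range_succ]
      ring
  -- the rows
  have hmain : ∀ i, i < m → 0 ≤ ∑ l ∈ range (2 * n + 3), cf (2 * i + 2) (l + 1) * z l := by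
    intro i hi
    have h2 := hTsum i hi.le (2 * n + 3) le_rfl
    have h3 : T (2 * i + 2) (2 * n + 3) = 0 := by
      have h4 : wt P ω ((2 * i + 2, 2 * n + 3), (2 * i + 2, 2 * n + 3 + 1)) = 0 := by
        refine if_neg fun h5 => ?_
        have h6 := (hor_mem.1 (mem_net.1 h5)).2.2.2.2 rfl
        omega
      show wt P ω _ * _ = 0
      rw [h4, zero_mul]
    have h4 := hT0 (2 * i + 2) 0 (by omega) (by omega)
    rw [h3] at h2
    linarith
  have htie : ∑ l ∈ range (2 * n + 3), cf (2 * m + 2) (l + 1) * z l ≤ 0 := by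
    have h2 := hTsum m le_rfl (2 * n + 3) le_rfl
    have h3 : T (2 * m + 2) 0 = 0 := by
      have h4 : wt P ω ((2 * m + 2, 0), (2 * m + 2, 0 + 1)) = 0 := by
        refine if_neg fun h5 => ?_
        exact (hor_mem.1 (mem_net.1 h5)).2.2.2.1 rfl rfl
      show wt P ω _ * _ = 0
      rw [h4, zero_mul]
    have h4 := hT0 (2 * m + 2) (2 * n + 3) (by omega) (by omega)
    rw [h3] at h2
    linarith
  have htie' : z (2 * n + 2) ≤ z 0 := by
    rw [split_sum, h.left m le_rfl, h.right m le_rfl, h.tie _ (by omega) (by omega)] at htie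
    have h2 : ∀ l ∈ range n, cf (2 * m + 2) (l + 1 + 1) * z (l + 1) = 0 := by
      intro l hl
      rw [Finset.mem_range] at hl
      rw [h.tie _ (by omega) (by omega), zero_mul]
    have h3 : ∀ l ∈ range n, cf (2 * m + 2) (n + l + 1 + 1) * z (n + l + 1) = 0 := by
      intro l hl
      rw [Finset.mem_range] at hl
      rw [h.tie _ (by omega) (by omega), zero_mul]
    rw [Finset.sum_eq_zero h2, Finset.sum_eq_zero h3] at htie
    linarith
  refine ⟨fun l => z (l + 1) - z (n + l + 1), fun i hi => ?_⟩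
  have h2 := hmain i hi
  rw [split_sum, h.left i hi.le, h.right i hi.le, h.rhs i hi, hzt] at h2
  have h3 : ∑ l ∈ range n, cf (2 * i + 2) (l + 1 + 1) * z (l + 1) =
      ∑ l ∈ range n, a i l * z (l + 1) := by
    refine Finset.sum_congr rfl fun l hl => ?_
    rw [Finset.mem_range] at hl
    rw [h.pos i l hi hl]
  have h4 : ∑ l ∈ range n, cf (2 * i + 2) (n + l + 1 + 1) * z (n + l + 1) =
      -∑ l ∈ range n, a i l * z (n + l + 1) := by
    rw [← Finset.sum_neg_distrib]
    refine Finset.sum_congr rfl fun l hl => ?_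
    rw [Finset.mem_range] at hl
    rw [h.neg i l hi hl]
    ring
  rw [h3, h4] at h2
  have h5 : ∑ l ∈ range n, a i l * (z (l + 1) - z (n + l + 1)) =
      ∑ l ∈ range n, a i l * z (l + 1) - ∑ l ∈ range n, a i l * z (n + l + 1) := by
    rw [← Finset.sum_sub_distrib]
    exact Finset.sum_congr rfl fun l _ => by ring
  show b i ≤ ∑ l ∈ range n, a i l * (z (l + 1) - z (n + l + 1))
  rw [h5]
  linarith

/-- the tension in the row `r`, if the tensions of the columns are `z` -/
noncomputable def TT (m n : ℕ) (cf : ℕ → ℕ → ℝ) (z : ℕ → ℝ) (r j : ℕ) : ℝ :=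
  (if r = 2 * m + 2 then 0 else if r % 2 = 1 then ∑ l ∈ range (2 * n + 3),
      |px m n cf (r + 1) (l + 1) + px m n cf (r - 1) (l + 1) - 2 * px m n cf r (l + 1)| * z l
    else ∑ l ∈ range (2 * n + 3),
      (px m n cf (r + 1) (l + 1) + px m n cf (r - 1) (l + 1) - 2 * px m n cf r (l + 1)) * z l) -
  ∑ l ∈ range j,
    (px m n cf (r + 1) (l + 1) + px m n cf (r - 1) (l + 1) - 2 * px m n cf r (l + 1)) * z l

theorem TT_nonneg (h : Coef m n cf a b) {z : ℕ → ℝ} (hz : ∀ j, 0 ≤ z j)
    (h0 : z 0 = z (2 * n + 2)) (hbig : ∀ i, i < m → ∑ l ∈ Ico 1 (2 * n + 2),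
      |cf (2 * i + 2) (l + 1)| * z l ≤ z (2 * n + 2))
    (hmid : ∀ i, i < m → 0 ≤ ∑ l ∈ range (2 * n + 3), cf (2 * i + 2) (l + 1) * z l)
    {r j : ℕ} (hr : 1 ≤ r) (hr' : r ≤ 2 * m + 3) (hj : j ≤ 2 * n + 3) :
    0 ≤ TT m n cf z r j := by
  unfold TT
  split_ifs with h1 h2
  · -- the last row
    subst h1
    have h3 : ∀ l, (px m n cf (2 * m + 2 + 1) (l + 1) + px m n cf (2 * m + 2 - 1) (l + 1) -
        2 * px m n cf (2 * m + 2) (l + 1)) * z l = 2 * (cf (2 * m + 2) (l + 1) * z l) := by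
      intro l
      have := sd_main h (i := m) (j := l + 1) le_rfl
      rw [show 2 * m + 2 + 1 = 2 * m + 3 by omega, show 2 * m + 2 - 1 = 2 * m + 1 by omega, this]
      ring
    simp_rw [h3]
    rw [← Finset.mul_sum]
    suffices h4 : ∑ l ∈ range j, cf (2 * m + 2) (l + 1) * z l ≤ 0 by linarith
    rcases j with _ | j
    · simp
    · rw [Finset.sum_range_succ']
      have h5 : cf (2 * m + 2) (0 + 1) * z 0 = -z 0 := by
        rw [h.left m le_rfl]; ring
      rw [h5]
      have h6 : ∑ l ∈ range j, cf (2 * m + 2) (l + 1 + 1) * z (l + 1) ≤ z (2 * n + 2) := by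
        by_cases hj' : j = 2 * n + 2
        · subst hj'
          rw [Finset.sum_range_succ, Finset.sum_eq_zero, zero_add]
          · rw [show 2 * n + 1 + 1 + 1 = 2 * n + 3 by omega, h.right m le_rfl, one_mul]
          · intro l hl
            rw [Finset.mem_range] at hl
            rw [h.tie _ (by omega) (by omega), zero_mul]
        · rw [Finset.sum_eq_zero]
          · exact hz _
          · intro l hl
            rw [Finset.mem_range] at hl
            rw [h.tie _ (by omega) (by omega), zero_mul]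
      rw [h0]
      linarith
  · -- the odd rows
    rw [sub_nonneg]
    refine le_trans (Finset.sum_le_sum (g := fun l => |px m n cf (r + 1) (l + 1) +
      px m n cf (r - 1) (l + 1) - 2 * px m n cf r (l + 1)| * z l) fun l _ =>
        mul_le_mul_of_nonneg_right (le_abs_self _) (hz l)) ?_
    exact Finset.sum_le_sum_of_subset_of_nonneg (Finset.range_mono hj) fun l _ _ =>
      mul_nonneg (abs_nonneg _) (hz l)
  · -- the rows of the constraints
    obtain ⟨i, rfl⟩ : ∃ i, r = 2 * i + 2 := ⟨r / 2 - 1, by omega⟩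
    have hi : i < m := by omega
    have h3 : ∀ l, (px m n cf (2 * i + 2 + 1) (l + 1) + px m n cf (2 * i + 2 - 1) (l + 1) -
        2 * px m n cf (2 * i + 2) (l + 1)) * z l = 2 * (cf (2 * i + 2) (l + 1) * z l) := by
      intro l
      have := sd_main h (i := i) (j := l + 1) hi.le
      rw [show 2 * i + 2 + 1 = 2 * i + 3 by omega, show 2 * i + 2 - 1 = 2 * i + 1 by omega, this]
      ring
    simp_rw [h3]
    rw [← Finset.mul_sum, ← Finset.mul_sum, ← mul_sub]
    refine mul_nonneg zero_le_two ?_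
    rcases Nat.eq_zero_or_pos j with rfl | hj0
    · simpa using hmid i hi
    · rw [← Finset.sum_range_add_sum_Ico _ hj, add_sub_cancel_left]
      by_cases hj' : j = 2 * n + 3
      · rw [hj']; simp
      · rw [Finset.sum_Ico_succ_top (by omega), h.right i hi.le, one_mul]
        have h4 : -∑ l ∈ Ico 1 (2 * n + 2), |cf (2 * i + 2) (l + 1)| * z l ≤
            ∑ l ∈ Ico j (2 * n + 2), cf (2 * i + 2) (l + 1) * z l := by
          rw [← Finset.sum_neg_distrib]
          refine le_trans ?_ (Finset.sum_le_sum (f := fun l => -(|cf (2 * i + 2) (l + 1)| * z l))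
            fun l _ => ?_)
          · rw [Finset.sum_neg_distrib, Finset.sum_neg_distrib, neg_le_neg_iff]
            exact Finset.sum_le_sum_of_subset_of_nonneg (Finset.Ico_subset_Ico hj0 le_rfl)
              fun l _ _ => mul_nonneg (abs_nonneg _) (hz l)
          · rw [← neg_mul]
            exact mul_le_mul_of_nonneg_right (neg_abs_le _) (hz l)
        have h5 := hbig i hi
        linarith

theorem carries_from (h : Coef m n cf a b) (x : ℕ → ℝ)
    (hx : ∀ i < m, b i ≤ ∑ l ∈ range n, a i l * x l) : (netWeb m n cf).Carries := by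
  -- the tensions of the columns
  set zm : ℕ → ℝ := fun j => if j = 0 ∨ 2 * n + 1 < j then 0 else if j = 2 * n + 1 then 1 else
    if j ≤ n then max (x (j - 1)) 0 else max (-x (j - n - 1)) 0 with hzm
  have hzm0 : ∀ j, 0 ≤ zm j := by
    intro j
    simp only [hzm]
    split_ifs
    · exact le_rfl
    · exact zero_le_one
    · exact le_max_right _ _
    · exact le_max_right _ _
  set Z : ℝ := ∑ i ∈ range m, ∑ l ∈ Ico 1 (2 * n + 2), |cf (2 * i + 2) (l + 1)| * zm l with hZ
  have hZ0 : 0 ≤ Z := Finset.sum_nonneg fun i _ => Finset.sum_nonneg fun l _ =>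
    mul_nonneg (abs_nonneg _) (hzm0 l)
  set z : ℕ → ℝ := fun j => if j = 0 ∨ j = 2 * n + 2 then Z else zm j with hzd
  have hz : ∀ j, 0 ≤ z j := by
    intro j
    simp only [hzd]
    split_ifs
    · exact hZ0
    · exact hzm0 j
  have hzz : ∀ j, 1 ≤ j → j ≤ 2 * n + 1 → z j = zm j := by
    intro j h1 h2
    simp only [hzd]
    rw [if_neg (by omega)]
  have z0 : z 0 = Z := if_pos (Or.inl rfl)
  have zl : z (2 * n + 2) = Z := if_pos (Or.inr rfl)
  have zt : z (2 * n + 1) = 1 := by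
    rw [hzz _ (by omega) le_rfl]
    simp only [hzm]
    rw [if_neg (by omega), if_true]
  have zp : ∀ l, l < n → z (l + 1) = max (x l) 0 := by
    intro l hl
    rw [hzz _ (by omega) (by omega)]
    simp only [hzm]
    rw [if_neg (by omega), if_neg (by omega), if_pos (by omega), Nat.add_sub_cancel]
  have zn : ∀ l, l < n → z (n + l + 1) = max (-x l) 0 := by
    intro l hl
    rw [hzz _ (by omega) (by omega)]
    simp only [hzm]
    rw [if_neg (by omega), if_neg (by omega), if_neg (by omega),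
      show n + l + 1 - n - 1 = l by omega]
  have hbig : ∀ i, i < m → ∑ l ∈ Ico 1 (2 * n + 2),
      |cf (2 * i + 2) (l + 1)| * z l ≤ z (2 * n + 2) := by
    intro i hi
    rw [zl, hZ]
    have h1 : ∑ l ∈ Ico 1 (2 * n + 2), |cf (2 * i + 2) (l + 1)| * z l =
        ∑ l ∈ Ico 1 (2 * n + 2), |cf (2 * i + 2) (l + 1)| * zm l := by
      refine Finset.sum_congr rfl fun l hl => ?_
      rw [Finset.mem_Ico] at hl
      rw [hzz _ hl.1 (by omega)]
    rw [h1]
    exact Finset.single_le_sum (f := fun i => ∑ l ∈ Ico 1 (2 * n + 2),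
      |cf (2 * i + 2) (l + 1)| * zm l) (fun i _ => Finset.sum_nonneg fun l _ =>
        mul_nonneg (abs_nonneg _) (hzm0 l)) (Finset.mem_range.2 hi)
  have hmid : ∀ i, i < m → 0 ≤ ∑ l ∈ range (2 * n + 3), cf (2 * i + 2) (l + 1) * z l := by
    intro i hi
    rw [split_sum, h.left i hi.le, h.right i hi.le, h.rhs i hi, zt, z0, zl]
    have h3 : ∑ l ∈ range n, cf (2 * i + 2) (l + 1 + 1) * z (l + 1) =
        ∑ l ∈ range n, a i l * max (x l) 0 := by
      refine Finset.sum_congr rfl fun l hl => ?_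
      rw [Finset.mem_range] at hl
      rw [h.pos i l hi hl, zp l hl]
    have h4 : ∑ l ∈ range n, cf (2 * i + 2) (n + l + 1 + 1) * z (n + l + 1) =
        -∑ l ∈ range n, a i l * max (-x l) 0 := by
      rw [← Finset.sum_neg_distrib]
      refine Finset.sum_congr rfl fun l hl => ?_
      rw [Finset.mem_range] at hl
      rw [h.neg i l hi hl, zn l hl]
      ring
    rw [h3, h4]
    have h5 := hx i hi
    have h6 : ∑ l ∈ range n, a i l * x l = ∑ l ∈ range n, a i l * max (x l) 0 -
        ∑ l ∈ range n, a i l * max (-x l) 0 := by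
      rw [← Finset.sum_sub_distrib]
      refine Finset.sum_congr rfl fun l _ => ?_
      rw [← mul_sub]
      congr 1
      have h7 := max_zero_sub_max_neg_zero_eq_self (x l)
      exact h7.symm
    rw [h6] at h5
    linarith
  have hTT : ∀ r j, 1 ≤ r → r ≤ 2 * m + 3 → j ≤ 2 * n + 3 → 0 ≤ TT m n cf z r j :=
    fun r j h1 h2 h3 => TT_nonneg h hz (z0.trans zl.symm) hbig hmid h1 h2 h3
  -- the tensions of the cables
  let ω : (ℕ × ℕ) × (ℕ × ℕ) → ℝ := fun e => if e.2.1 = e.1.1 then
    TT m n cf z e.1.1 e.1.2 / (px m n cf e.1.1 (e.1.2 + 1) - px m n cf e.1.1 e.1.2)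
    else z (e.1.2 - 1)
  have hv : ∀ r j, r ≤ 2 * m + 3 → j < 2 * n + 3 →
      wt (netWeb m n cf) ω ((r, j + 1), (r + 1, j + 1)) = z j := by
    intro r j hr hj
    rw [wt, if_pos (mem_net.2 (vert_mem hr hj))]
    show (if r + 1 = r then _ else z (j + 1 - 1)) = z j
    rw [if_neg (by omega), Nat.add_sub_cancel]
  have hh : ∀ r j, 1 ≤ r → r ≤ 2 * m + 3 → j ≤ 2 * n + 3 →
      wt (netWeb m n cf) ω ((r, j), (r, j + 1)) * (px m n cf r (j + 1) - px m n cf r j) =
        TT m n cf z r j := by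
    intro r j hr hr' hj
    have hd : px m n cf r (j + 1) - px m n cf r j ≠ 0 :=
      (sub_pos.2 (px_lt m n cf (by omega) hj)).ne'
    unfold wt
    split_ifs with hc
    · show (if r = r then TT m n cf z r j / (px m n cf r (j + 1) - px m n cf r j) else _) * _ = _
      rw [if_pos rfl, div_mul_cancel₀ _ hd]
    · rw [zero_mul]
      rw [mem_net, hor_mem] at hc
      by_cases h1 : r = 2 * m + 2
      · have h2 : j = 0 := by
          by_contra h2
          exact hc ⟨hr, hr', hj, fun h3 => absurd h3 h2, fun _ => Or.inr h1⟩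
        subst h2
        unfold TT
        rw [if_pos h1, Finset.sum_range_zero, sub_zero]
      · have h2 : j = 2 * n + 3 ∧ ¬ r % 2 = 1 := by
          constructor
          · by_contra h2
            exact hc ⟨hr, hr', hj, fun _ => h1, fun h3 => absurd h3 h2⟩
          · intro h2
            exact hc ⟨hr, hr', hj, fun _ => h1, fun _ => Or.inl h2⟩
        unfold TT
        rw [if_neg h1, if_neg h2.2, h2.1, sub_self]
  refine ⟨ω, fun e he => ?_, fun v hv' => ?_⟩
  · rw [mem_net, mem_cabL] at he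
    rcases he with ⟨r, j, h1, h2, h3, rfl⟩ | ⟨r, j, h1, h2, h3, h4, h5, rfl⟩
    · show 0 ≤ (if r + 1 = r then _ else z (j - 1))
      rw [if_neg (by omega)]
      exact hz _
    · show 0 ≤ (if r = r then TT m n cf z r j / (px m n cf r (j + 1) - px m n cf r j) else _)
      rw [if_pos rfl]
      exact div_nonneg (hTT r j h1 h2 h3) (sub_nonneg.2 (px_lt m n cf (by omega) h3).le)
  · rw [mem_net_free, mem_freeL] at hv'
    by_cases hv'' : v = (2 * m + 4, 2 * n + 2)
    · subst hv''
      obtain ⟨h3, h4⟩ := net_sum (m := m) (n := n) (cf := cf) ω (2 * m + 3) (2 * n + 1)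
      have h5 : wt (netWeb m n cf) ω ((2 * m + 3 + 1, 2 * n + 1 + 1),
          (2 * m + 3 + 2, 2 * n + 1 + 1)) = 0 :=
        if_neg (fun h => vert_not (by omega) (mem_net.1 h))
      have h6 : wt (netWeb m n cf) ω ((2 * m + 3 + 1, 2 * n + 1 + 1),
          (2 * m + 3 + 1, 2 * n + 1 + 2)) = 0 :=
        if_neg (fun h => by have := (hor_mem.1 (mem_net.1 h)).2.1; omega)
      have h7 : wt (netWeb m n cf) ω ((2 * m + 3 + 1, 2 * n + 1),
          (2 * m + 3 + 1, 2 * n + 1 + 1)) = 0 :=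
        if_neg (fun h => by have := (hor_mem.1 (mem_net.1 h)).2.1; omega)
      have h8 : px m n cf (2 * m + 3) (2 * n + 1 + 1) =
          px m n cf (2 * m + 3 + 1) (2 * n + 1 + 1) := by
        unfold px
        rw [h.zero _ _ (Or.inr (Or.inr rfl)), h.zero _ _ (Or.inl (by omega))]
      rw [h5, h6, h7, h8] at h3
      rw [h5, hv _ _ le_rfl (by omega), zt] at h4
      rw [net_load']
      refine Prod.ext ?_ ?_
      · show (∑ e ∈ (netWeb m n cf).cables, ω e •
          (netWeb m n cf).pull e (2 * m + 4, 2 * n + 2)).1 + 0 = 0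
        rw [add_zero]
        refine h3.trans ?_
        ring
      · show (∑ e ∈ (netWeb m n cf).cables, ω e •
          (netWeb m n cf).pull e (2 * m + 4, 2 * n + 2)).2 + 1 = 0
        have h9 : (∑ e ∈ (netWeb m n cf).cables, ω e •
          (netWeb m n cf).pull e (2 * m + 4, 2 * n + 2)).2 = 0 - 1 := h4
        rw [h9]
        ring
    · rw [net_load hv'', add_zero]
      obtain ⟨r, j⟩ := v
      obtain ⟨h1, h2, h3, h4⟩ := hv'.resolve_right hv''
      dsimp only at h1 h2 h3 h4
      obtain ⟨r, rfl⟩ : ∃ r', r = r' + 1 := ⟨r - 1, by omega⟩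
      obtain ⟨j, rfl⟩ : ∃ j', j = j' + 1 := ⟨j - 1, by omega⟩
      obtain ⟨h5, h6⟩ := net_sum (m := m) (n := n) (cf := cf) ω r j
      refine Prod.ext ?_ ?_
      · rw [h5]
        have e1 : wt (netWeb m n cf) ω ((r + 1, j + 1), (r + 2, j + 1)) = z j :=
          hv (r + 1) j h2 (by omega)
        rw [e1, hv r j (by omega) (by omega)]
        have e2 := hh (r + 1) (j + 1) h1 h2 (by omega)
        have e3 := hh (r + 1) j h1 h2 (by omega)
        have e4 : TT m n cf z (r + 1) (j + 1) = TT m n cf z (r + 1) j -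
            (px m n cf (r + 1 + 1) (j + 1) + px m n cf (r + 1 - 1) (j + 1) -
              2 * px m n cf (r + 1) (j + 1)) * z j := by
          unfold TT
          rw [Finset.sum_range_succ _ j]
          ring
        rw [Nat.add_sub_cancel] at e4
        show _ = (0 : ℝ)
        linear_combination e2 - e3 + e4
      · rw [h6]
        have e1 : wt (netWeb m n cf) ω ((r + 1, j + 1), (r + 2, j + 1)) = z j :=
          hv (r + 1) j h2 (by omega)
        rw [e1, hv r j (by omega) (by omega), sub_self]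
        rfl

/-- **The net carries the load iff the system is solvable.** -/
theorem carries_iff (h : Coef m n cf a b) : (netWeb m n cf).Carries ↔
    ∃ x : ℕ → ℝ, ∀ i < m, b i ≤ ∑ l ∈ range n, a i l * x l :=
  ⟨carries_to h, fun ⟨x, hx⟩ => carries_from h x hx⟩

end

end Pool.Agent.U17.PN
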