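import Pool.Agent.U17.PN.Sys

/-!
# The lengths of the numbers computed by the program
-/

set_option autoImplicit false

namespace Pool.Agent.U17.PN

open Pool.Agent.H558R2 Pool.Agent.H622R3.SM

/-- height of a rational number -/
def hN (q : ℚ) : ℕ := q.num.natAbs + q.den

theorem hN_div (a b : ℤ) (hb : b ≠ 0) : hN ((a : ℚ) / b) ≤ a.natAbs + b.natAbs := by
  rw [← Rat.divInt_eq_div]
  unfold hN
  refine Nat.add_le_add ?_ ?_
  · by_cases ha : a = 0
    · subst ha
      simp
    · exact Nat.le_of_dvd (Int.natAbs_pos.2 ha) (Int.natAbs_dvd_natAbs.2 (Rat.num_dvd a hb))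
  · have h1 := Int.natAbs_dvd_natAbs.2 (Rat.den_dvd a b)
    simp only [Int.natAbs_natCast] at h1
    exact Nat.le_of_dvd (Int.natAbs_pos.2 hb) h1

theorem hN_add (p q : ℚ) : hN (p + q) ≤ hN p * hN q := by
  have hp : (p.den : ℚ) ≠ 0 := by exact_mod_cast p.den_ne_zero
  have hq : (q.den : ℚ) ≠ 0 := by exact_mod_cast q.den_ne_zero
  have h1 : p + q = ((p.num * q.den + q.num * p.den : ℤ) : ℚ) / ((p.den * q.den : ℤ) : ℚ) := by
    push_cast
    have e1 : (p.num : ℚ) = p * p.den := (Rat.mul_den_eq_num p).symm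
    have e2 : (q.num : ℚ) = q * q.den := (Rat.mul_den_eq_num q).symm
    rw [e1, e2]
    field_simp
  have h2 := hN_div (p.num * q.den + q.num * p.den) (p.den * q.den) (by
    exact_mod_cast Nat.mul_ne_zero p.den_ne_zero q.den_ne_zero)
  rw [← h1] at h2
  refine h2.trans ?_
  have h3 : (p.num * q.den + q.num * p.den).natAbs ≤
      p.num.natAbs * q.den + q.num.natAbs * p.den := by
    refine (Int.natAbs_add_le _ _).trans ?_
    rw [Int.natAbs_mul, Int.natAbs_mul, Int.natAbs_natCast, Int.natAbs_natCast]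
  have h4 : ((p.den : ℤ) * (q.den : ℤ)).natAbs = p.den * q.den := by
    rw [Int.natAbs_mul, Int.natAbs_natCast, Int.natAbs_natCast]
  rw [h4]
  unfold hN
  nlinarith [Nat.zero_le (p.num.natAbs * q.num.natAbs)]

theorem hN_mul (p q : ℚ) : hN (p * q) ≤ hN p * hN q := by
  have hp : (p.den : ℚ) ≠ 0 := by exact_mod_cast p.den_ne_zero
  have hq : (q.den : ℚ) ≠ 0 := by exact_mod_cast q.den_ne_zero
  have h1 : p * q = ((p.num * q.num : ℤ) : ℚ) / ((p.den * q.den : ℤ) : ℚ) := by
    push_cast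
    have e1 : (p.num : ℚ) = p * p.den := (Rat.mul_den_eq_num p).symm
    have e2 : (q.num : ℚ) = q * q.den := (Rat.mul_den_eq_num q).symm
    rw [e1, e2]
    field_simp
  have h2 := hN_div (p.num * q.num) (p.den * q.den) (by
    exact_mod_cast Nat.mul_ne_zero p.den_ne_zero q.den_ne_zero)
  rw [← h1] at h2
  refine h2.trans ?_
  rw [Int.natAbs_mul, Int.natAbs_mul, Int.natAbs_natCast, Int.natAbs_natCast]
  unfold hN
  nlinarith [Nat.zero_le (p.num.natAbs * q.den), Nat.zero_le (q.num.natAbs * p.den)]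

theorem hN_neg (p : ℚ) : hN (-p) = hN p := by
  unfold hN
  simp

theorem hN_le (q : ℚ) : hN q ≤ 2 ^ bitLength q := by
  unfold hN bitLength
  have h1 : q.num.natAbs < 2 ^ q.num.natAbs.size := Nat.lt_size_self _
  have h2 : q.den < 2 ^ q.den.size := Nat.lt_size_self _
  have h3 : 2 ^ q.num.natAbs.size ≤ 2 ^ (q.num.natAbs.size + q.den.size) :=
    Nat.pow_le_pow_right (by norm_num) (by omega)
  have h4 : 2 ^ q.den.size ≤ 2 ^ (q.num.natAbs.size + q.den.size) :=
    Nat.pow_le_pow_right (by norm_num) (by omega)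
  have h5 : 2 ^ (1 + q.num.natAbs.size + q.den.size) =
      2 * 2 ^ (q.num.natAbs.size + q.den.size) := by
    rw [add_assoc, pow_add, pow_one]
  omega

theorem bitLength_le {q : ℚ} {E : ℕ} (h : hN q ≤ 2 ^ E) : bitLength q ≤ 2 * E + 3 := by
  unfold hN at h
  unfold bitLength
  have h0 : 2 ^ (E + 1) = 2 * 2 ^ E := by rw [pow_succ]; ring
  have hpos : 0 < 2 ^ E := by positivity
  have h1 : q.num.natAbs.size ≤ E + 1 := Nat.size_le.2 (by omega)
  have h2 : q.den.size ≤ E + 1 := Nat.size_le.2 (by omega)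
  omega

/-- rational numbers of height at most `2 ^ E` -/
def RP (E : ℕ) (x : ℝ) : Prop := ∃ q : ℚ, (q : ℝ) = x ∧ hN q ≤ 2 ^ E

theorem RP.mono {E E' : ℕ} {x : ℝ} (h : RP E x) (hE : E ≤ E') : RP E' x := by
  obtain ⟨q, h1, h2⟩ := h
  exact ⟨q, h1, h2.trans (Nat.pow_le_pow_right (by norm_num) hE)⟩

theorem RP.add {E E' : ℕ} {x y : ℝ} (hx : RP E x) (hy : RP E' y) : RP (E + E') (x + y) := by
  obtain ⟨q, h1, h2⟩ := hx
  obtain ⟨q', h3, h4⟩ := hy
  refine ⟨q + q', by rw [← h1, ← h3]; push_cast; rfl, (hN_add q q').trans ?_⟩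
  rw [pow_add]
  exact Nat.mul_le_mul h2 h4

theorem RP.mul {E E' : ℕ} {x y : ℝ} (hx : RP E x) (hy : RP E' y) : RP (E + E') (x * y) := by
  obtain ⟨q, h1, h2⟩ := hx
  obtain ⟨q', h3, h4⟩ := hy
  refine ⟨q * q', by rw [← h1, ← h3]; push_cast; rfl, (hN_mul q q').trans ?_⟩
  rw [pow_add]
  exact Nat.mul_le_mul h2 h4

theorem RP.neg {E : ℕ} {x : ℝ} (hx : RP E x) : RP E (-x) := by
  obtain ⟨q, h1, h2⟩ := hx
  exact ⟨-q, by rw [← h1]; push_cast; rfl, by rw [hN_neg]; exact h2⟩

theorem RP.sub {E E' : ℕ} {x y : ℝ} (hx : RP E x) (hy : RP E' y) : RP (E + E') (x - y) := by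
  rw [sub_eq_add_neg]
  exact hx.add hy.neg

theorem RP.zero : RP 0 0 := ⟨0, by simp, by simp [hN]⟩

theorem RP.one : RP 1 1 := ⟨1, by simp, by simp [hN]⟩

theorem RP.sum {E : ℕ} (L : List ℝ) (h : ∀ x ∈ L, RP E x) : RP (L.length * E) L.sum := by
  induction L with
  | nil => simpa using RP.zero
  | cons a L ih =>
    rw [List.sum_cons, List.length_cons]
    have h1 := (h a (List.mem_cons_self ..)).add (ih fun x hx => h x (List.mem_cons_of_mem _ hx))
    refine h1.mono ?_
    ring_nf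
    omega

section

variable {m n : ℕ} (A : Matrix (Fin m) (Fin n) ℝ) (b : Fin m → ℝ)
  (A' : Matrix (Fin m) (Fin n) ℚ) (b' : Fin m → ℚ)

theorem le_len_A (i : Fin m) (j : Fin n) : bitLength (A' i j) ≤ inputLength A' b' := by
  unfold inputLength
  have h1 : bitLength (A' i j) ≤ ∑ j, bitLength (A' i j) :=
    Finset.single_le_sum (f := fun j => bitLength (A' i j)) (fun _ _ => Nat.zero_le _)
      (Finset.mem_univ j)
  have h2 : ∑ j, bitLength (A' i j) ≤ ∑ i, ∑ j, bitLength (A' i j) :=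
    Finset.single_le_sum (f := fun i => ∑ j, bitLength (A' i j)) (fun _ _ => Nat.zero_le _)
      (Finset.mem_univ i)
  omega

theorem le_len_b (i : Fin m) : bitLength (b' i) ≤ inputLength A' b' := by
  unfold inputLength
  have h1 : bitLength (b' i) ≤ ∑ i, bitLength (b' i) :=
    Finset.single_le_sum (f := fun i => bitLength (b' i)) (fun _ _ => Nat.zero_le _)
      (Finset.mem_univ i)
  omega

theorem len_ge (hm : 1 ≤ m) (hn : 1 ≤ n) : m + n ≤ inputLength A' b' := by
  unfold inputLength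
  have h0 : ∀ q : ℚ, 1 ≤ bitLength q := fun q => by unfold bitLength; omega
  have h1 : m * n ≤ ∑ i, ∑ j, bitLength (A' i j) := by
    calc m * n = ∑ _i : Fin m, ∑ _j : Fin n, 1 := by simp
      _ ≤ _ := Finset.sum_le_sum fun i _ => Finset.sum_le_sum fun j _ => h0 _
  have h2 : m ≤ ∑ i, bitLength (b' i) := by
    calc m = ∑ _i : Fin m, 1 := by simp
      _ ≤ _ := Finset.sum_le_sum fun i _ => h0 _
  nlinarith

variable {A b A' b'}

theorem start_RP (hA : ∀ i j, ((A' i j : ℚ) : ℝ) = A i j) (hb : ∀ i, ((b' i : ℚ) : ℝ) = b i) :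
    (∀ i j, RP (inputLength A' b' + 1) (start A b [0, i, j])) ∧
      (∀ i, RP (inputLength A' b' + 1) (start A b [1, i])) := by
  constructor
  · intro i j
    show RP _ (if h : i < m ∧ j < n then A ⟨i, h.1⟩ ⟨j, h.2⟩ else 0)
    split_ifs with h
    · exact ⟨A' ⟨i, h.1⟩ ⟨j, h.2⟩, hA _ _, (hN_le _).trans (Nat.pow_le_pow_right (by norm_num)
        ((le_len_A A' b' _ _).trans (Nat.le_succ _)))⟩
    · exact RP.zero.mono (Nat.zero_le _)
  · intro i
    show RP _ (if h : i < m then b ⟨i, h⟩ else 0)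
    split_ifs with h
    · exact ⟨b' ⟨i, h⟩, hb _, (hN_le _).trans (Nat.pow_le_pow_right (by norm_num)
        ((le_len_b A' b' _).trans (Nat.le_succ _)))⟩
    · exact RP.zero.mono (Nat.zero_le _)

theorem cfv_RP (hA : ∀ i j, ((A' i j : ℚ) : ℝ) = A i j) (hb : ∀ i, ((b' i : ℚ) : ℝ) = b i)
    (v : ℕ × ℕ) : RP (inputLength A' b' + 1) (ival (start A b) (cI m n v)) := by
  have h1 : RP (inputLength A' b' + 1) (start A b (cI m n v).snd) := by
    obtain ⟨g0, g1⟩ := start_RP hA hb
    rcases cI_snd m n v with h | h | ⟨i, j, h⟩ | ⟨i, h⟩ <;> rw [h]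
    · rw [start2]
      exact RP.one.mono (by omega)
    · rw [start9]
      exact RP.zero.mono (by omega)
    · exact g0 i j
    · exact g1 i
  have h2 : start A b (cI m n v).fst = 0 := by rw [cI_fst, start9]
  unfold ival
  rw [h2]
  rcases cI_op m n v with h | h <;> rw [h]
  · show RP _ (0 + start A b (cI m n v).snd)
    rw [zero_add]
    exact h1
  · show RP _ (0 - start A b (cI m n v).snd)
    rw [zero_sub]
    exact h1.neg

/-- the exponent of the bound for the heights -/
def EE (m n L : ℕ) : ℕ := 2 * (L + 1) * ((nodesL m n).length + 4)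

theorem dx_RP (hA : ∀ i j, ((A' i j : ℚ) : ℝ) = A i j) (hb : ∀ i, ((b' i : ℚ) : ℝ) = b i)
    (e : Cb) (he : e ∈ cabL m n) : RP (EE m n (inputLength A' b')) (dx A b e) := by
  set L := inputLength A' b'
  have h1 : ∀ r j, RP (L + 1) (cfv A b r j) := fun r j => cfv_RP hA hb (r, j)
  have hd : RP (2 * (L + 1)) (cfv A b e.1.1 e.1.2 - cfv A b e.2.1 e.2.2) :=
    ((h1 _ _).sub (h1 _ _)).mono (by omega)
  have hS : RP (((nodesL m n).length + 3) * (2 * (L + 1))) (s3 A b [13]) := by
    unfold s3 P3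
    rw [fin_acc _ _ not_sreg, s2_13, zero_add]
    have h2 : ∀ x ∈ (sreg m n).map (s2 A b), RP (2 * (L + 1)) x := by
      intro x hx
      rw [List.mem_map] at hx
      obtain ⟨s, hs, rfl⟩ := hx
      unfold sreg at hs
      rw [List.mem_append, List.mem_map] at hs
      rcases hs with hs | ⟨v, hv, rfl⟩
      · have : s = [2] := by simpa using hs
        rw [this, s2_2]
        exact RP.one.mono (by omega)
      · rw [s2_sq A b hv]
        exact ((h1 _ _).mul (h1 _ _)).mono (by omega)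
    have h3 := RP.sum _ h2
    refine h3.mono ?_
    rw [List.length_map]
    unfold sreg
    rw [List.length_append, List.length_map]
    simp only [List.length_cons, List.length_nil]
    exact Nat.mul_le_mul_right _ (by omega)
  have h4 : dx A b e = (cfv A b e.1.1 e.1.2 - cfv A b e.2.1 e.2.2) +
      s3 A b (if e.2.1 = e.1.1 then [13] else [9]) := by
    rw [← s4_d A b he]
    unfold s4
    have h5 := fin_par (P4 m n) (par_P4 m n) (s3 A b)
      ⟨Op.add, rg 7 e, rg 12 e, if e.2.1 = e.1.1 then [13] else [9]⟩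
      (List.mem_map_of_mem (f := fun e : Cb =>
        (⟨Op.add, rg 7 e, rg 12 e, if e.2.1 = e.1.1 then [13] else [9]⟩ : Instr)) he)
    refine Eq.trans h5 ?_
    show s3 A b (rg 12 e) + _ = _
    rw [s3_d A b he]
  rw [h4]
  have h6 : RP (((nodesL m n).length + 3) * (2 * (L + 1)))
      (s3 A b (if e.2.1 = e.1.1 then [13] else [9])) := by
    split_ifs
    · exact hS
    · rw [s3_9]
      exact RP.zero.mono (Nat.zero_le _)
  refine (hd.add h6).mono (le_of_eq ?_)
  unfold EE
  ring

theorem ereg_RP (hA : ∀ i j, ((A' i j : ℚ) : ℝ) = A i j) (hb : ∀ i, ((b' i : ℚ) : ℝ) = b i)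
    (ρ : Rw) (e : Cb) (he : e ∈ cabL m n) :
    RP (EE m n (inputLength A' b')) (s5 A b (ereg ρ e)) := by
  have h0 : RP (EE m n (inputLength A' b')) (s5 A b [9]) := by
    rw [s5_9]; exact RP.zero.mono (Nat.zero_le _)
  have h1' : 1 ≤ EE m n (inputLength A' b') := by
    unfold EE
    nlinarith [Nat.zero_le (inputLength A' b' * (nodesL m n).length)]
  have h1 : RP (EE m n (inputLength A' b')) (s5 A b [2]) := by
    rw [s5_2]; exact RP.one.mono h1'
  have h2 : RP (EE m n (inputLength A' b')) (s5 A b [10]) := by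
    rw [s5_10]; exact RP.one.neg.mono h1'
  have h7 : RP (EE m n (inputLength A' b')) (s5 A b (rg 7 e)) := by
    rw [s5_7 A b he]; exact dx_RP hA hb e he
  have h8 : RP (EE m n (inputLength A' b')) (s5 A b (rg 8 e)) := by
    rw [s5_8 A b he]; exact (dx_RP hA hb e he).neg
  unfold ereg
  rcases ρ with v | e'
  · simp only [Sum.elim_inl, ereg1]
    split_ifs <;> assumption
  · simp only [Sum.elim_inr]
    split_ifs <;> assumption

theorem rreg_RP (hA : ∀ i j, ((A' i j : ℚ) : ℝ) = A i j) (hb : ∀ i, ((b' i : ℚ) : ℝ) = b i)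
    (ρ : Rw) : RP (EE m n (inputLength A' b')) (s5 A b (rreg m n ρ)) := by
  have h0 : RP (EE m n (inputLength A' b')) (s5 A b [9]) := by
    rw [s5_9]; exact RP.zero.mono (Nat.zero_le _)
  have h1' : 1 ≤ EE m n (inputLength A' b') := by
    unfold EE
    nlinarith [Nat.zero_le (inputLength A' b' * (nodesL m n).length)]
  have h1 : RP (EE m n (inputLength A' b')) (s5 A b [2]) := by
    rw [s5_2]; exact RP.one.mono h1'
  have h2 : RP (EE m n (inputLength A' b')) (s5 A b [10]) := by
    rw [s5_10]; exact RP.one.neg.mono h1'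
  unfold rreg
  rcases ρ with v | e'
  · simp only [Sum.elim_inl]
    split_ifs <;> assumption
  · exact h0

theorem outs_RP (hA : ∀ i j, ((A' i j : ℚ) : ℝ) = A i j) (hb : ∀ i, ((b' i : ℚ) : ℝ) = b i)
    (v : ℝ) (hv : v ∈ outs (prog m n) (start A b)) : RP (EE m n (inputLength A' b')) v := by
  set L := inputLength A' b' with hL
  have hE : 2 * (L + 1) ≤ EE m n L := by
    unfold EE
    exact Nat.le_mul_of_pos_right _ (by omega)
  have h1 : ∀ r j, RP (L + 1) (cfv A b r j) := fun r j => cfv_RP hA hb (r, j)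
  unfold prog at hv
  rw [outs_append, outs_append, outs_append, outs_append, outs_append, outs_append] at hv
  simp only [List.mem_append] at hv
  rcases hv with hv | hv | hv | hv | hv | hv | hv
  · obtain ⟨I, hI, rfl⟩ := outs_par _ (par_P1 m n) _ _ hv
    simp only [P1, List.mem_append, List.mem_map, List.mem_cons, List.not_mem_nil, or_false] at hI
    rcases hI with ⟨w, -, rfl⟩ | rfl
    · exact (cfv_RP hA hb w).mono (by omega)
    · show RP _ (start A b [9] - start A b [2])
      rw [start9, start2]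
      exact (RP.zero.sub RP.one).mono (by omega)
  · change v ∈ outs (P2 m n) (s1 A b) at hv
    obtain ⟨I, hI, rfl⟩ := outs_par _ (par_P2 m n) _ _ hv
    simp only [P2, List.mem_append, List.mem_map] at hI
    rcases hI with ⟨w, hw, rfl⟩ | ⟨e, he, rfl⟩
    · show RP _ (s1 A b [11, w.1, w.2] * s1 A b [11, w.1, w.2])
      rw [s1_v A b hw]
      exact ((h1 _ _).mul (h1 _ _)).mono (by omega)
    · show RP _ (s1 A b [11, e.1.1, e.1.2] - s1 A b [11, e.2.1, e.2.2])
      rw [s1_v A b (mem_cab_nodes he).1, s1_v A b (mem_cab_nodes he).2]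
      exact ((h1 _ _).sub (h1 _ _)).mono (by omega)
  · change v ∈ outs (P3 m n) (s2 A b) at hv
    obtain ⟨L', L'', h2, rfl⟩ := outs_acc _ _ not_sreg _ _ hv
    rw [s2_13, zero_add]
    have h3 : ∀ x ∈ L'.map (s2 A b), RP (2 * (L + 1)) x := by
      intro x hx
      rw [List.mem_map] at hx
      obtain ⟨s, hs, rfl⟩ := hx
      have hs' : s ∈ sreg m n := by rw [h2]; exact List.mem_append_left _ hs
      unfold sreg at hs'
      rw [List.mem_append, List.mem_map] at hs'
      rcases hs' with hs' | ⟨w, hw, rfl⟩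
      · have : s = [2] := by simpa using hs'
        rw [this, s2_2]
        exact RP.one.mono (by omega)
      · rw [s2_sq A b hw]
        exact ((h1 _ _).mul (h1 _ _)).mono (by omega)
    have h4 := RP.sum _ h3
    refine h4.mono ?_
    rw [List.length_map]
    have h5 : L'.length ≤ (nodesL m n).length + 4 := by
      have h6 := congrArg List.length h2
      unfold sreg at h6
      rw [List.length_append, List.length_append, List.length_map] at h6
      simp only [List.length_cons, List.length_nil] at h6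
      omega
    unfold EE
    calc L'.length * (2 * (L + 1)) ≤ ((nodesL m n).length + 4) * (2 * (L + 1)) :=
          Nat.mul_le_mul_right _ h5
      _ = _ := by ring
  · change v ∈ outs (P4 m n) (s3 A b) at hv
    obtain ⟨I, hI, rfl⟩ := outs_par _ (par_P4 m n) _ _ hv
    have h2 := fin_par _ (par_P4 m n) (s3 A b) I hI
    rw [← h2]
    simp only [P4, List.mem_map] at hI
    obtain ⟨e, he, rfl⟩ := hI
    show RP _ (s4 A b (rg 7 e))
    rw [s4_d A b he]
    exact dx_RP hA hb e he
  · change v ∈ outs (P5 m n) (s4 A b) at hv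
    obtain ⟨I, hI, rfl⟩ := outs_par _ (par_P5 m n) _ _ hv
    have h2 := fin_par _ (par_P5 m n) (s4 A b) I hI
    rw [← h2]
    simp only [P5, List.mem_map] at hI
    obtain ⟨e, he, rfl⟩ := hI
    show RP _ (s5 A b (rg 8 e))
    rw [s5_8 A b he]
    exact (dx_RP hA hb e he).neg
  · change v ∈ outs (P6 m n) (s5 A b) at hv
    obtain ⟨I, hI, rfl⟩ := outs_par _ (par_P6 m n) _ _ hv
    rcases mem_P6.1 hI with ⟨ρ, i, e, j, -, h2, rfl⟩ | ⟨ρ, i, -, rfl⟩
    · show RP _ (s5 A b (ereg ρ e) + s5 A b [9])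
      rw [s5_9, add_zero]
      refine ereg_RP hA hb ρ e ?_
      rw [List.mem_zipIdx_iff_getElem?] at h2
      exact List.mem_of_getElem? h2
    · show RP _ (s5 A b (rreg m n ρ) + s5 A b [9])
      rw [s5_9, add_zero]
      exact rreg_RP hA hb ρ
  · obtain ⟨I, hI, rfl⟩ := outs_par _ (par_P7 m n) _ _ hv
    simp only [P7, List.mem_map] at hI
    obtain ⟨s, hs, rfl⟩ := hI
    show RP _ (_ - _)
    rw [sub_self]
    exact RP.zero.mono (Nat.zero_le _)

end

end Pool.Agent.U17.PN
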