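import Pool.Agent.U17.PN.Len
import Pool.Agent.U17.PN.Ctl

/-!
# The reduction
-/

set_option autoImplicit false

namespace Pool.Agent.U17.PN

open Pool.Agent.H558R2 Pool.Agent.H622R3.SM

/-- The algorithm `α` decides linear feasibility for the instances in the class `C` in strongly
polynomial time: for some polynomial `p`, on every real instance in `C` it stops with the correct
answer after at most `p (m + n)` elementary steps, never dividing by zero, and if the instance is
rational, of encoding length `L`, then all numbers computed are rational of encoding length at most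
`p (L)`. -/
def DecidesOn (C : ∀ m n : ℕ, Matrix (Fin m) (Fin n) ℝ → (Fin m → ℝ) → Prop) (α : Alg) : Prop :=
  ∃ p : Polynomial ℕ, ∀ m n : ℕ, 1 ≤ m → 1 ≤ n →
    ∀ (A : Matrix (Fin m) (Fin n) ℝ) (b : Fin m → ℝ), C m n A b → ∃ ans nums steps,
      run ∅ (α m n) (p.eval (m + n)) [] (start A b) = some (ans, nums, steps) ∧
      (ans = true ↔ ∃ x : Fin n → ℝ, b ≤ A.mulVec x) ∧ steps ≤ p.eval (m + n) ∧
      ∀ (A' : Matrix (Fin m) (Fin n) ℚ) (b' : Fin m → ℚ), (∀ i j, ((A' i j : ℚ) : ℝ) = A i j) →
        (∀ i, ((b' i : ℚ) : ℝ) = b i) →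
        ∀ v ∈ nums, ∃ q : ℚ, (q : ℝ) = v ∧ bitLength q ≤ p.eval (inputLength A' b')

/-- Linear feasibility can be decided in strongly polynomial time on the class `C`. -/
def StronglyPoly (C : ∀ m n : ℕ, Matrix (Fin m) (Fin n) ℝ → (Fin m → ℝ) → Prop) : Prop :=
  ∃ α : Alg, PolyControl α ∧ OracleFree α ∧ DecidesOn C α

theorem StronglyPoly.mono {C C' : ∀ m n : ℕ, Matrix (Fin m) (Fin n) ℝ → (Fin m → ℝ) → Prop}
    (h : StronglyPoly C) (hC : ∀ m n A b, C' m n A b → C m n A b) : StronglyPoly C' := by
  obtain ⟨α, h1, h2, p, h3⟩ := h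
  exact ⟨α, h1, h2, p, fun m n hm hn A b hb => h3 m n hm hn A b (hC _ _ _ _ hb)⟩

/-! ### Bounds -/

theorem length_nodesL (m n : ℕ) : (nodesL m n).length = (2 * m + 5) * (2 * n + 5) := by
  unfold nodesL
  rw [List.length_product, List.length_range, List.length_range]

theorem bounds {m n x : ℕ} (hx : m + n ≤ x) :
    (nodesL m n).length ≤ (2 * x + 5) ^ 2 ∧ (cabL m n).length ≤ (2 * x + 5) ^ 4 ∧
      (rowsL m n).length ≤ 5 * (2 * x + 5) ^ 4 ∧
      (prog m n).length ≤ 27 * (2 * x + 5) ^ 8 := by
  have h1 : (nodesL m n).length ≤ (2 * x + 5) ^ 2 := by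
    rw [length_nodesL, sq]
    exact Nat.mul_le_mul (by omega) (by omega)
  have h2 : (cabL m n).length ≤ (2 * x + 5) ^ 4 := by
    refine (List.length_filter_le _ _).trans ?_
    rw [List.length_product, show (2 * x + 5) ^ 4 = (2 * x + 5) ^ 2 * (2 * x + 5) ^ 2 by ring]
    exact Nat.mul_le_mul h1 h1
  have h24 : (2 * x + 5) ^ 2 ≤ (2 * x + 5) ^ 4 := Nat.pow_le_pow_right (by omega) (by omega)
  have h48 : (2 * x + 5) ^ 4 ≤ (2 * x + 5) ^ 8 := Nat.pow_le_pow_right (by omega) (by omega)
  have h8 : 1 ≤ (2 * x + 5) ^ 8 := Nat.one_le_pow _ _ (by omega)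
  have h3 : (rowsL m n).length ≤ 5 * (2 * x + 5) ^ 4 := by
    have hf : (freeL m n).length ≤ (nodesL m n).length := List.length_filter_le _ _
    have : (rowsL m n).length = (freeL m n).length * 4 + (cabL m n).length := by
      unfold rowsL
      rw [List.length_append, List.length_map, List.length_map, List.length_product]
      rfl
    omega
  refine ⟨h1, h2, h3, ?_⟩
  have l1 : (P1 m n).length = (nodesL m n).length + 1 := by simp [P1]
  have l2 : (P2 m n).length = (nodesL m n).length + (cabL m n).length := by simp [P2]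
  have l3 : (P3 m n).length = 3 + (nodesL m n).length := by simp [P3, sreg]; omega
  have l4 : (P4 m n).length = (cabL m n).length := by simp [P4]
  have l5 : (P5 m n).length = (cabL m n).length := by simp [P5]
  have l6 : (P6 m n).length = (rowsL m n).length * (cabL m n).length + (rowsL m n).length := by
    unfold P6
    rw [List.length_append, List.length_map, List.length_flatMap]
    simp
  have l7 : (P7 m n).length = 2 * (nodesL m n).length + 3 * (cabL m n).length + 2 := by
    simp [P7, aux]; omega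
  have h6 : (rowsL m n).length * (cabL m n).length ≤ 5 * (2 * x + 5) ^ 8 := by
    calc (rowsL m n).length * (cabL m n).length ≤ (5 * (2 * x + 5) ^ 4) * (2 * x + 5) ^ 4 :=
          Nat.mul_le_mul h3 h2
      _ = _ := by ring
  have ht : (prog m n).length = (P1 m n).length + ((P2 m n).length + ((P3 m n).length +
      ((P4 m n).length + ((P5 m n).length + ((P6 m n).length + (P7 m n).length))))) := by
    unfold prog
    simp only [List.length_append]
  omega

theorem bound_EE {m n x : ℕ} (hx : m + n ≤ x) : 2 * EE m n x + 3 ≤ 23 * (2 * x + 5) ^ 3 := by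
  have h1 := (bounds hx).1
  unfold EE
  have h2 : 1 ≤ (2 * x + 5) ^ 2 := Nat.one_le_pow _ _ (by omega)
  have h3 : (nodesL m n).length + 4 ≤ 5 * (2 * x + 5) ^ 2 := by omega
  have h4 : 2 * (x + 1) * ((nodesL m n).length + 4) ≤ (2 * (2 * x + 5)) * (5 * (2 * x + 5) ^ 2) :=
    Nat.mul_le_mul (by omega) h3
  have h5 : (2 * (2 * x + 5)) * (5 * (2 * x + 5) ^ 2) = 10 * (2 * x + 5) ^ 3 := by ring
  have h6 : 1 ≤ (2 * x + 5) ^ 3 := Nat.one_le_pow _ _ (by omega)
  omega

/-- the polynomial of the reduction -/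
noncomputable def QQ : Polynomial ℕ := 230 * (2 * Polynomial.X + 5) ^ 11

theorem QQ_eval (x : ℕ) : QQ.eval x = 230 * (2 * x + 5) ^ 11 := by
  unfold QQ
  simp

theorem eval_mono (p : Polynomial ℕ) {m n : ℕ} (h : m ≤ n) : p.eval m ≤ p.eval n :=
  Pool.Agent.NPC.eval_mono p h

theorem le_QQ {x k e : ℕ} (he : e ≤ 11) (hk : k ≤ 230) : k * (2 * x + 5) ^ e ≤ QQ.eval x := by
  rw [QQ_eval]
  exact Nat.mul_le_mul hk (Nat.pow_le_pow_right (by omega) he)

/-- **If linear feasibility is strongly polynomial on the systems of grid nets, then it is so on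
all systems.** -/
theorem to_all (h : StronglyPoly NetSystem) : StronglyPoly fun _ _ _ _ => True := by
  obtain ⟨α, h1, h2, p, h3⟩ := h
  refine ⟨redAlg α, redAlg_control h1, redAlg_free h2, p.comp QQ + QQ, ?_⟩
  intro m n hm hn A b _
  have hM : 1 ≤ (rowsL m n).length := hm.trans (le_cab.1.trans cab_le_rows)
  have hN1 : 1 ≤ (cabL m n).length := hn.trans le_cab.2
  obtain ⟨ans, nums, steps, hrun, hans, hsteps, hlen⟩ := h3 _ _ hM hN1 (mA A b) (mb A b)
    (mA_net A b)
  obtain ⟨b1, b2, b3, b4⟩ := bounds (le_refl (m + n))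
  have hsize : (rowsL m n).length + (cabL m n).length ≤ QQ.eval (m + n) := by
    refine le_trans ?_ (le_QQ (k := 6) (e := 4) (by norm_num) (by norm_num))
    omega
  have hp : p.eval ((rowsL m n).length + (cabL m n).length) ≤ p.eval (QQ.eval (m + n)) :=
    eval_mono p hsize
  have hq : (p.comp QQ + QQ).eval (m + n) = p.eval (QQ.eval (m + n)) + QQ.eval (m + n) := by
    rw [Polynomial.eval_add, Polynomial.eval_comp]
  rw [← fin_prog] at hrun
  have hrun' := run_pre ∅ (prog m n) (prog_op m n) _ _ _ _ hrun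
  refine ⟨ans, outs (prog m n) (start A b) ++ nums, (prog m n).length + steps, ?_, ?_, ?_, ?_⟩
  · rw [redAlg_eq]
    exact run_mono _ _ (by rw [hq]; omega) _ _ _ hrun'
  · rw [hans, mA_iff]
  · have h5 : (prog m n).length ≤ QQ.eval (m + n) :=
      b4.trans (le_QQ (k := 27) (e := 8) (by norm_num) (by norm_num))
    rw [hq]
    omega
  · intro A' b' hA hb v hv
    set L := inputLength A' b' with hL
    have hmn : m + n ≤ L := len_ge A' b' hm hn
    obtain ⟨c1, c2, c3, c4⟩ := bounds hmn
    have hE := bound_EE hmn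
    have hqL : (p.comp QQ + QQ).eval L = p.eval (QQ.eval L) + QQ.eval L := by
      rw [Polynomial.eval_add, Polynomial.eval_comp]
    rcases List.mem_append.1 hv with hv | hv
    · obtain ⟨q, hq1, hq2⟩ := outs_RP hA hb v hv
      refine ⟨q, hq1, (bitLength_le (E := EE m n L) hq2).trans ?_⟩
      have h6 : 23 * (2 * L + 5) ^ 3 ≤ QQ.eval L := le_QQ (by norm_num) (by norm_num)
      rw [hqL]
      omega
    · have hAr : ∀ i j, ∃ q : ℚ, (q : ℝ) = mA A b i j ∧ hN q ≤ 2 ^ EE m n L :=
        fun i j => ereg_RP hA hb _ _ (List.getElem_mem _)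
      have hbr : ∀ i, ∃ q : ℚ, (q : ℝ) = mb A b i ∧ hN q ≤ 2 ^ EE m n L :=
        fun i => rreg_RP hA hb _
      choose A'' hA1 hA2 using hAr
      choose b'' hb1 hb2 using hbr
      obtain ⟨q, hq1, hq2⟩ := hlen A'' b'' hA1 hb1 v hv
      refine ⟨q, hq1, hq2.trans ?_⟩
      have h7 : inputLength A'' b'' ≤ QQ.eval L := by
        have h8 : inputLength A'' b'' ≤
            ((rowsL m n).length * (cabL m n).length + (rowsL m n).length) *
              (2 * EE m n L + 3) := by
          unfold inputLength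
          have h9 : ∑ i, ∑ j, bitLength (A'' i j) ≤
              ∑ _i : Fin (rowsL m n).length, ∑ _j : Fin (cabL m n).length,
                (2 * EE m n L + 3) :=
            Finset.sum_le_sum fun i _ => Finset.sum_le_sum fun j _ => bitLength_le (hA2 i j)
          have h10 : ∑ i, bitLength (b'' i) ≤
              ∑ _i : Fin (rowsL m n).length, (2 * EE m n L + 3) :=
            Finset.sum_le_sum fun i _ => bitLength_le (hb2 i)
          simp only [Finset.sum_const, Finset.card_univ, Fintype.card_fin, smul_eq_mul] at h9 h10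
          calc _ ≤ _ := Nat.add_le_add h9 h10
            _ = _ := by ring
        have h11 : (rowsL m n).length * (cabL m n).length + (rowsL m n).length ≤
            10 * (2 * L + 5) ^ 8 := by
          have h12 : (rowsL m n).length * (cabL m n).length ≤ 5 * (2 * L + 5) ^ 8 := by
            calc (rowsL m n).length * (cabL m n).length ≤
                (5 * (2 * L + 5) ^ 4) * (2 * L + 5) ^ 4 := Nat.mul_le_mul c3 c2
              _ = _ := by ring
          have h48 : (2 * L + 5) ^ 4 ≤ (2 * L + 5) ^ 8 :=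
            Nat.pow_le_pow_right (by omega) (by omega)
          omega
        calc inputLength A'' b'' ≤ _ := h8
          _ ≤ (10 * (2 * L + 5) ^ 8) * (23 * (2 * L + 5) ^ 3) := Nat.mul_le_mul h11 hE
          _ = QQ.eval L := by rw [QQ_eval]; ring
      rw [hqL]
      exact (eval_mono p h7).trans (Nat.le_add_right _ _)

end Pool.Agent.U17.PN
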