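import Pool.Agent.U17.PN.Exec
import Pool.Agent.U17.PN.Geo2
import Pool.Agent.H671R2.GraphEnc

/-!
# The program which computes the system of the net
-/

set_option autoImplicit false

namespace Pool.Agent.U17.PN

open Pool.Agent.H558R2 Pool.Agent.H622R3.SM

/-- cables -/
abbrev Cb : Type := (ℕ × ℕ) × (ℕ × ℕ)

/-- labels of rows -/
abbrev Rw : Type := ((ℕ × ℕ) × ℕ) ⊕ Cb

/-- the instruction for a coefficient -/
def cI (m n : ℕ) (v : ℕ × ℕ) : Instr :=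
  if v.1 % 2 = 0 ∧ (2 ≤ v.1 ∧ v.1 ≤ 2 * m + 2) then
    if v.2 = 1 then ⟨Op.sub, [11, v.1, v.2], [9], [2]⟩
    else if v.2 = 2 * n + 3 then ⟨Op.add, [11, v.1, v.2], [9], [2]⟩
    else if v.1 ≤ 2 * m ∧ 2 ≤ v.2 then
      if v.2 < n + 2 then ⟨Op.add, [11, v.1, v.2], [9], [0, v.1 / 2 - 1, v.2 - 2]⟩
      else if v.2 < 2 * n + 2 then ⟨Op.sub, [11, v.1, v.2], [9], [0, v.1 / 2 - 1, v.2 - 2 - n]⟩
      else if v.2 = 2 * n + 2 then ⟨Op.sub, [11, v.1, v.2], [9], [1, v.1 / 2 - 1]⟩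
      else ⟨Op.add, [11, v.1, v.2], [9], [9]⟩
    else ⟨Op.add, [11, v.1, v.2], [9], [9]⟩
  else ⟨Op.add, [11, v.1, v.2], [9], [9]⟩

theorem cI_dst (m n : ℕ) (v : ℕ × ℕ) : (cI m n v).dst = [11, v.1, v.2] := by
  unfold cI
  split_ifs <;> rfl

theorem cI_fst (m n : ℕ) (v : ℕ × ℕ) : (cI m n v).fst = [9] := by
  unfold cI
  split_ifs <;> rfl

theorem cI_op (m n : ℕ) (v : ℕ × ℕ) : (cI m n v).op = Op.add ∨ (cI m n v).op = Op.sub := by
  unfold cI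
  split_ifs <;> simp

theorem cI_snd (m n : ℕ) (v : ℕ × ℕ) : (cI m n v).snd = [2] ∨ (cI m n v).snd = [9] ∨
    (∃ i j, (cI m n v).snd = [0, i, j]) ∨ ∃ i, (cI m n v).snd = [1, i] := by
  unfold cI
  split_ifs <;> simp

/-- the register of a difference of positions -/
def rg (t : ℕ) (e : Cb) : Reg := [t, e.1.1, e.1.2, e.2.1, e.2.2]

/-- the program, part 1: coefficients -/
def P1 (m n : ℕ) : List Instr := (nodesL m n).map (fun v => cI m n v) ++ [⟨Op.sub, [10], [9], [2]⟩]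

/-- part 2: squares and differences -/
def P2 (m n : ℕ) : List Instr :=
  (nodesL m n).map (fun v => ⟨Op.mul, [14, v.1, v.2], [11, v.1, v.2], [11, v.1, v.2]⟩) ++
    (cabL m n).map (fun e => ⟨Op.sub, rg 12 e, [11, e.1.1, e.1.2], [11, e.2.1, e.2.2]⟩)

/-- the summands of the width -/
def sreg (m n : ℕ) : List Reg :=
  [[2], [2], [2]] ++ (nodesL m n).map (fun v => [14, v.1, v.2])

/-- part 3: the width -/
def P3 (m n : ℕ) : List Instr := (sreg m n).map (fun s => ⟨Op.add, [13], [13], s⟩)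

/-- part 4: differences of positions -/
def P4 (m n : ℕ) : List Instr :=
  (cabL m n).map (fun e => ⟨Op.add, rg 7 e, rg 12 e, if e.2.1 = e.1.1 then [13] else [9]⟩)

/-- part 5: negatives -/
def P5 (m n : ℕ) : List Instr := (cabL m n).map (fun e => ⟨Op.sub, rg 8 e, [9], rg 7 e⟩)

/-- rows of the system -/
def rowsL (m n : ℕ) : List Rw :=
  (freeL m n ×ˢ [0, 1, 2, 3]).map (fun v => (Sum.inl v : Rw)) ++
    (cabL m n).map (fun e => (Sum.inr e : Rw))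

/-- the register with an entry of an equilibrium row -/
def ereg1 (v : (ℕ × ℕ) × ℕ) (e : Cb) : Reg :=
  if e.1 = v.1 then
    if v.2 = 0 then rg 7 e else if v.2 = 1 then rg 8 e
    else if e.2.1 = e.1.1 then [9] else if v.2 = 2 then [2] else [10]
  else if e.2 = v.1 then
    if v.2 = 0 then rg 8 e else if v.2 = 1 then rg 7 e
    else if e.2.1 = e.1.1 then [9] else if v.2 = 2 then [10] else [2]
  else [9]

/-- the register with an entry -/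
def ereg (ρ : Rw) (e : Cb) : Reg :=
  Sum.elim (fun v => ereg1 v e) (fun e' => if e = e' then [2] else [9]) ρ

/-- the register with a right-hand side -/
def rreg (m n : ℕ) (ρ : Rw) : Reg :=
  Sum.elim (fun v : (ℕ × ℕ) × ℕ => if v.1 = (2 * m + 4, 2 * n + 2) then
    (if v.2 = 2 then [10] else if v.2 = 3 then [2] else [9]) else [9]) (fun _ => [9]) ρ

/-- part 6: the matrix and the right-hand side -/
def P6 (m n : ℕ) : List Instr :=
  (rowsL m n).zipIdx.flatMap (fun ρ => (cabL m n).zipIdx.map (fun e =>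
    ⟨Op.add, [0, ρ.2, e.2], ereg ρ.1 e.1, [9]⟩)) ++
  (rowsL m n).zipIdx.map (fun ρ => ⟨Op.add, [1, ρ.2], rreg m n ρ.1, [9]⟩)

/-- auxiliary registers -/
def aux (m n : ℕ) : List Reg :=
  (nodesL m n).map (fun v => [11, v.1, v.2]) ++ ((nodesL m n).map (fun v => [14, v.1, v.2]) ++
    ((cabL m n).map (fun e => rg 12 e) ++ ((cabL m n).map (fun e => rg 7 e) ++
      ((cabL m n).map (fun e => rg 8 e) ++ [[13], [10]]))))

/-- part 7: the auxiliary registers are set to zero -/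
def P7 (m n : ℕ) : List Instr := (aux m n).map (fun s => ⟨Op.sub, s, [9], [9]⟩)

/-- the program -/
def prog (m n : ℕ) : List Instr :=
  P1 m n ++ (P2 m n ++ (P3 m n ++ (P4 m n ++ (P5 m n ++ (P6 m n ++ P7 m n)))))

theorem mem_aux {m n : ℕ} {x : Reg} : x ∈ aux m n ↔
    (∃ v ∈ nodesL m n, x = [11, v.1, v.2]) ∨ (∃ v ∈ nodesL m n, x = [14, v.1, v.2]) ∨
    (∃ e ∈ cabL m n, x = rg 12 e) ∨ (∃ e ∈ cabL m n, x = rg 7 e) ∨
    (∃ e ∈ cabL m n, x = rg 8 e) ∨ x = [13] ∨ x = [10] := by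
  unfold aux
  simp only [List.mem_append, List.mem_map, List.mem_cons, List.not_mem_nil, or_false,
    eq_comm (b := x)]

/-! ### The parts are parallel assignments -/

theorem par_P1 (m n : ℕ) : Par (P1 m n) := by
  have hd : ∀ I ∈ P1 m n, (∃ v, I = cI m n v) ∨ I = ⟨Op.sub, [10], [9], [2]⟩ := by
    intro I hI
    simp only [P1, List.mem_append, List.mem_map, List.mem_cons, List.not_mem_nil, or_false] at hI
    rcases hI with ⟨v, -, rfl⟩ | hI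
    · exact Or.inl ⟨v, rfl⟩
    · exact Or.inr hI
  refine ⟨fun I hI J hJ => ?_, fun I hI J hJ => ?_, fun I hI J hJ hIJ => ?_⟩
  · have h1 : J.fst = [9] := by
      rcases hd J hJ with ⟨w, rfl⟩ | rfl
      · exact cI_fst m n w
      · rfl
    rw [h1]
    rcases hd I hI with ⟨v, rfl⟩ | rfl
    · rw [cI_dst]; simp
    · simp
  · have h1 : I.dst.head? = some 11 ∨ I.dst.head? = some 10 := by
      rcases hd I hI with ⟨v, rfl⟩ | rfl
      · rw [cI_dst]; simp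
      · simp
    intro h2
    rcases hd J hJ with ⟨w, rfl⟩ | rfl
    · rw [h2] at h1
      rcases cI_snd m n w with h | h | ⟨i, j, h⟩ | ⟨i, h⟩ <;> rw [h] at h1 <;> simp at h1
    · rw [h2] at h1
      simp at h1
  · rcases hd I hI with ⟨v, rfl⟩ | rfl <;> rcases hd J hJ with ⟨w, rfl⟩ | rfl
    · rw [cI_dst, cI_dst] at hIJ
      simp only [List.cons.injEq, and_true, true_and] at hIJ
      have : v = w := Prod.ext hIJ.1 hIJ.2
      rw [this]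
    · rw [cI_dst] at hIJ
      simp at hIJ
    · rw [cI_dst] at hIJ
      simp at hIJ
    · rfl

theorem rg_inj {t t' : ℕ} {e e' : Cb} : rg t e = rg t' e' ↔ t = t' ∧ e = e' := by
  obtain ⟨⟨a, b⟩, ⟨c, d⟩⟩ := e
  obtain ⟨⟨a', b'⟩, ⟨c', d'⟩⟩ := e'
  simp [rg, and_assoc]

theorem par_P2 (m n : ℕ) : Par (P2 m n) := by
  have hd : ∀ I ∈ P2 m n, (∃ v : ℕ × ℕ, I = ⟨Op.mul, [14, v.1, v.2], [11, v.1, v.2],
      [11, v.1, v.2]⟩) ∨ ∃ e : Cb, I = ⟨Op.sub, rg 12 e, [11, e.1.1, e.1.2],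
        [11, e.2.1, e.2.2]⟩ := by
    intro I hI
    simp only [P2, List.mem_append, List.mem_map] at hI
    rcases hI with ⟨v, -, rfl⟩ | ⟨e, -, rfl⟩
    · exact Or.inl ⟨v, rfl⟩
    · exact Or.inr ⟨e, rfl⟩
  refine ⟨fun I hI J hJ => ?_, fun I hI J hJ => ?_, fun I hI J hJ hIJ => ?_⟩
  · rcases hd I hI with ⟨v, rfl⟩ | ⟨e, rfl⟩ <;> rcases hd J hJ with ⟨w, rfl⟩ | ⟨e', rfl⟩ <;>
      simp [rg]
  · rcases hd I hI with ⟨v, rfl⟩ | ⟨e, rfl⟩ <;> rcases hd J hJ with ⟨w, rfl⟩ | ⟨e', rfl⟩ <;>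
      simp [rg]
  · rcases hd I hI with ⟨v, rfl⟩ | ⟨e, rfl⟩ <;> rcases hd J hJ with ⟨w, rfl⟩ | ⟨e', rfl⟩
    · simp only [List.cons.injEq, and_true, true_and] at hIJ
      have : v = w := Prod.ext hIJ.1 hIJ.2
      rw [this]
    · simp [rg] at hIJ
    · simp [rg] at hIJ
    · have : e = e' := (rg_inj.1 hIJ).2
      rw [this]

theorem par_P4 (m n : ℕ) : Par (P4 m n) := by
  have hd : ∀ I ∈ P4 m n, ∃ e : Cb, I = ⟨Op.add, rg 7 e, rg 12 e,
      if e.2.1 = e.1.1 then [13] else [9]⟩ := by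
    intro I hI
    simp only [P4, List.mem_map] at hI
    obtain ⟨e, -, rfl⟩ := hI
    exact ⟨e, rfl⟩
  refine ⟨fun I hI J hJ => ?_, fun I hI J hJ => ?_, fun I hI J hJ hIJ => ?_⟩
  · obtain ⟨e, rfl⟩ := hd I hI
    obtain ⟨e', rfl⟩ := hd J hJ
    intro h
    exact absurd (rg_inj.1 h).1 (by omega)
  · obtain ⟨e, rfl⟩ := hd I hI
    obtain ⟨e', rfl⟩ := hd J hJ
    show rg 7 e ≠ if e'.2.1 = e'.1.1 then [13] else [9]
    split_ifs <;> simp [rg]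
  · obtain ⟨e, rfl⟩ := hd I hI
    obtain ⟨e', rfl⟩ := hd J hJ
    have : e = e' := (rg_inj.1 hIJ).2
    rw [this]

theorem par_P5 (m n : ℕ) : Par (P5 m n) := by
  have hd : ∀ I ∈ P5 m n, ∃ e : Cb, I = ⟨Op.sub, rg 8 e, [9], rg 7 e⟩ := by
    intro I hI
    simp only [P5, List.mem_map] at hI
    obtain ⟨e, -, rfl⟩ := hI
    exact ⟨e, rfl⟩
  refine ⟨fun I hI J hJ => ?_, fun I hI J hJ => ?_, fun I hI J hJ hIJ => ?_⟩
  · obtain ⟨e, rfl⟩ := hd I hI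
    obtain ⟨e', rfl⟩ := hd J hJ
    show rg 8 e ≠ [9]
    simp [rg]
  · obtain ⟨e, rfl⟩ := hd I hI
    obtain ⟨e', rfl⟩ := hd J hJ
    intro h
    exact absurd (rg_inj.1 h).1 (by omega)
  · obtain ⟨e, rfl⟩ := hd I hI
    obtain ⟨e', rfl⟩ := hd J hJ
    have : e = e' := (rg_inj.1 hIJ).2
    rw [this]

theorem ereg_head (ρ : Rw) (e : Cb) : ∃ t l, ereg ρ e = t :: l ∧ 2 ≤ t := by
  unfold ereg
  rcases ρ with v | e'
  · simp only [Sum.elim_inl, ereg1, rg]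
    split_ifs <;> simp
  · simp only [Sum.elim_inr]
    split_ifs <;> simp

theorem rreg_head (m n : ℕ) (ρ : Rw) : ∃ t l, rreg m n ρ = t :: l ∧ 2 ≤ t := by
  unfold rreg
  rcases ρ with v | e'
  · simp only [Sum.elim_inl]
    split_ifs <;> simp
  · simp

theorem zipIdx_inj {A : Type} {L : List A} {x y : A} {i : ℕ} (h1 : (x, i) ∈ L.zipIdx)
    (h2 : (y, i) ∈ L.zipIdx) : x = y := by
  rw [List.mem_zipIdx_iff_getElem?] at h1 h2
  rw [h1] at h2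
  exact Option.some.inj h2

theorem mem_P6 {m n : ℕ} {I : Instr} : I ∈ P6 m n ↔
    (∃ (ρ : Rw) (i : ℕ) (e : Cb) (j : ℕ), (ρ, i) ∈ (rowsL m n).zipIdx ∧
      (e, j) ∈ (cabL m n).zipIdx ∧ I = ⟨Op.add, [0, i, j], ereg ρ e, [9]⟩) ∨
    ∃ (ρ : Rw) (i : ℕ), (ρ, i) ∈ (rowsL m n).zipIdx ∧ I = ⟨Op.add, [1, i], rreg m n ρ, [9]⟩ := by
  unfold P6
  simp only [List.mem_append, List.mem_flatMap, List.mem_map]
  constructor
  · rintro (⟨⟨ρ, i⟩, h1, ⟨e, j⟩, h2, rfl⟩ | ⟨⟨ρ, i⟩, h1, rfl⟩)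
    · exact Or.inl ⟨ρ, i, e, j, h1, h2, rfl⟩
    · exact Or.inr ⟨ρ, i, h1, rfl⟩
  · rintro (⟨ρ, i, e, j, h1, h2, rfl⟩ | ⟨ρ, i, h1, rfl⟩)
    · exact Or.inl ⟨⟨ρ, i⟩, h1, ⟨e, j⟩, h2, rfl⟩
    · exact Or.inr ⟨⟨ρ, i⟩, h1, rfl⟩

theorem par_P6 (m n : ℕ) : Par (P6 m n) := by
  have hf : ∀ I ∈ P6 m n, ∃ t l, I.fst = t :: l ∧ 2 ≤ t := by
    intro I hI
    rcases mem_P6.1 hI with ⟨ρ, i, e, j, -, -, rfl⟩ | ⟨ρ, i, -, rfl⟩
    · exact ereg_head ρ e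
    · exact rreg_head m n ρ
  have hs : ∀ I ∈ P6 m n, I.snd = [9] := by
    intro I hI
    rcases mem_P6.1 hI with ⟨ρ, i, e, j, -, -, rfl⟩ | ⟨ρ, i, -, rfl⟩ <;> rfl
  refine ⟨fun I hI J hJ => ?_, fun I hI J hJ => ?_, fun I hI J hJ hIJ => ?_⟩
  · obtain ⟨t, l, h1, h2⟩ := hf J hJ
    rw [h1]
    rcases mem_P6.1 hI with ⟨ρ, i, e, j, -, -, rfl⟩ | ⟨ρ, i, -, rfl⟩
    · intro h
      simp only [List.cons.injEq] at h
      omega
    · intro h
      simp only [List.cons.injEq] at h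
      omega
  · rw [hs J hJ]
    rcases mem_P6.1 hI with ⟨ρ, i, e, j, -, -, rfl⟩ | ⟨ρ, i, -, rfl⟩ <;> simp
  · rcases mem_P6.1 hI with ⟨ρ, i, e, j, h1, h2, rfl⟩ | ⟨ρ, i, h1, rfl⟩ <;>
      rcases mem_P6.1 hJ with ⟨ρ', i', e', j', h1', h2', rfl⟩ | ⟨ρ', i', h1', rfl⟩
    · simp only [List.cons.injEq, and_true, true_and] at hIJ
      obtain ⟨rfl, rfl⟩ := hIJ
      rw [zipIdx_inj h1 h1', zipIdx_inj h2 h2']
    · simp at hIJ
    · simp at hIJ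
    · simp only [List.cons.injEq, and_true, true_and] at hIJ
      subst hIJ
      rw [zipIdx_inj h1 h1']

theorem par_P7 (m n : ℕ) : Par (P7 m n) := by
  have hd : ∀ I ∈ P7 m n, ∃ s ∈ aux m n, I = ⟨Op.sub, s, [9], [9]⟩ := by
    intro I hI
    simp only [P7, List.mem_map] at hI
    obtain ⟨s, hs, rfl⟩ := hI
    exact ⟨s, hs, rfl⟩
  have h9 : ∀ s ∈ aux m n, s ≠ [9] := by
    intro s hs
    rw [mem_aux] at hs
    rcases hs with ⟨v, -, rfl⟩ | ⟨v, -, rfl⟩ | ⟨e, -, rfl⟩ | ⟨e, -, rfl⟩ | ⟨e, -, rfl⟩ | rfl | rfl <;>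
      simp [rg]
  refine ⟨fun I hI J hJ => ?_, fun I hI J hJ => ?_, fun I hI J hJ hIJ => ?_⟩
  · obtain ⟨s, hs, rfl⟩ := hd I hI
    obtain ⟨s', hs', rfl⟩ := hd J hJ
    exact h9 s hs
  · obtain ⟨s, hs, rfl⟩ := hd I hI
    obtain ⟨s', hs', rfl⟩ := hd J hJ
    exact h9 s hs
  · obtain ⟨s, hs, rfl⟩ := hd I hI
    obtain ⟨s', hs', rfl⟩ := hd J hJ
    have : s = s' := hIJ
    rw [this]

theorem prog_op (m n : ℕ) : ∀ I ∈ prog m n, I.op ≠ Op.div := by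
  intro I hI
  simp only [prog, List.mem_append] at hI
  rcases hI with hI | hI | hI | hI | hI | hI | hI
  · simp only [P1, List.mem_append, List.mem_map, List.mem_cons, List.not_mem_nil, or_false] at hI
    rcases hI with ⟨v, -, rfl⟩ | rfl
    · rcases cI_op m n v with h | h <;> rw [h] <;> simp
    · simp
  · simp only [P2, List.mem_append, List.mem_map] at hI
    rcases hI with ⟨v, -, rfl⟩ | ⟨e, -, rfl⟩ <;> simp
  · simp only [P3, List.mem_map] at hI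
    obtain ⟨s, -, rfl⟩ := hI
    simp
  · simp only [P4, List.mem_map] at hI
    obtain ⟨s, -, rfl⟩ := hI
    simp
  · simp only [P5, List.mem_map] at hI
    obtain ⟨s, -, rfl⟩ := hI
    simp
  · rcases mem_P6.1 hI with ⟨ρ, i, e, j, -, -, rfl⟩ | ⟨ρ, i, -, rfl⟩ <;> simp
  · simp only [P7, List.mem_map] at hI
    obtain ⟨s, -, rfl⟩ := hI
    simp

end Pool.Agent.U17.PN
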