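import Pool.Agent.U17.PN.Prog

/-!
# The store after the program
-/

set_option autoImplicit false

namespace Pool.Agent.U17.PN

open Pool.Agent.H558R2 Pool.Agent.H622R3.SM Pool.Agent.NPC

section keep

variable {m n : ℕ} {ρ : Reg → ℝ} {x : Reg}

theorem keep1 (h : x.head? ≠ some 11) (h' : x.head? ≠ some 10) : fin (P1 m n) ρ x = ρ x := by
  refine fin_of_not _ _ (fun I hI => ?_) _
  simp only [P1, List.mem_append, List.mem_map, List.mem_cons, List.not_mem_nil, or_false] at hI
  rcases hI with ⟨v, -, rfl⟩ | rfl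
  · rw [cI_dst]
    rintro rfl
    exact h rfl
  · rintro rfl
    exact h' rfl

theorem keep2 (h : x.head? ≠ some 14) (h' : x.head? ≠ some 12) : fin (P2 m n) ρ x = ρ x := by
  refine fin_of_not _ _ (fun I hI => ?_) _
  simp only [P2, List.mem_append, List.mem_map] at hI
  rcases hI with ⟨v, -, rfl⟩ | ⟨e, -, rfl⟩
  · rintro rfl
    exact h rfl
  · rintro rfl
    exact h' rfl

theorem keep3 (h : x ≠ [13]) : fin (P3 m n) ρ x = ρ x := by
  refine fin_of_not _ _ (fun I hI => ?_) _
  simp only [P3, List.mem_map] at hI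
  obtain ⟨s, -, rfl⟩ := hI
  exact Ne.symm h

theorem keep4 (h : x.head? ≠ some 7) : fin (P4 m n) ρ x = ρ x := by
  refine fin_of_not _ _ (fun I hI => ?_) _
  simp only [P4, List.mem_map] at hI
  obtain ⟨s, -, rfl⟩ := hI
  rintro rfl
  exact h rfl

theorem keep5 (h : x.head? ≠ some 8) : fin (P5 m n) ρ x = ρ x := by
  refine fin_of_not _ _ (fun I hI => ?_) _
  simp only [P5, List.mem_map] at hI
  obtain ⟨s, -, rfl⟩ := hI
  rintro rfl
  exact h rfl

theorem keep6 (h : ∀ i j, i < (rowsL m n).length → j < (cabL m n).length → x ≠ [0, i, j])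
    (h' : ∀ i, i < (rowsL m n).length → x ≠ [1, i]) : fin (P6 m n) ρ x = ρ x := by
  refine fin_of_not _ _ (fun I hI => ?_) _
  rcases mem_P6.1 hI with ⟨ρ, i, e, j, h1, h2, rfl⟩ | ⟨ρ, i, h1, rfl⟩
  · refine Ne.symm (h i j ?_ ?_)
    · exact List.snd_lt_of_mem_zipIdx h1
    · exact List.snd_lt_of_mem_zipIdx h2
  · exact Ne.symm (h' i (List.snd_lt_of_mem_zipIdx h1))

theorem keep7 (h : x ∉ aux m n) : fin (P7 m n) ρ x = ρ x := by
  refine fin_of_not _ _ (fun I hI => ?_) _
  simp only [P7, List.mem_map] at hI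
  obtain ⟨s, hs, rfl⟩ := hI
  rintro rfl
  exact h hs

end keep

section

variable {m n : ℕ} (A : Matrix (Fin m) (Fin n) ℝ) (b : Fin m → ℝ)

/-- the coefficients -/
noncomputable def cfv (r j : ℕ) : ℝ := ival (start A b) (cI m n (r, j))

theorem start9 : start A b [9] = 0 := rfl

theorem start2 : start A b [2] = 1 := rfl

theorem cfv_coef : Coef m n (cfv A b) (fun i l => start A b [0, i, l])
    (fun i => start A b [1, i]) where
  zero := by
    intro r j h
    have h1 : cI m n (r, j) = ⟨Op.add, [11, r, j], [9], [9]⟩ := by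
      unfold cI
      rw [if_neg]
      dsimp only
      omega
    unfold cfv
    rw [h1]
    show start A b [9] + start A b [9] = 0
    rw [start9, add_zero]
  left := by
    intro i hi
    have h1 : cI m n (2 * i + 2, 1) = ⟨Op.sub, [11, 2 * i + 2, 1], [9], [2]⟩ := by
      unfold cI
      rw [if_pos (by dsimp only; omega), if_pos rfl]
    unfold cfv
    rw [h1]
    show start A b [9] - start A b [2] = -1
    rw [start9, start2, zero_sub]
  right := by
    intro i hi
    have h1 : cI m n (2 * i + 2, 2 * n + 3) = ⟨Op.add, [11, 2 * i + 2, 2 * n + 3], [9], [2]⟩ := by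
      unfold cI
      rw [if_pos (by dsimp only; omega), if_neg (by dsimp only; omega), if_pos rfl]
    unfold cfv
    rw [h1]
    show start A b [9] + start A b [2] = 1
    rw [start9, start2, zero_add]
  pos := by
    intro i l hi hl
    have h1 : cI m n (2 * i + 2, l + 2) = ⟨Op.add, [11, 2 * i + 2, l + 2], [9], [0, i, l]⟩ := by
      unfold cI
      rw [if_pos (by dsimp only; omega), if_neg (by dsimp only; omega),
        if_neg (by dsimp only; omega), if_pos (by dsimp only; omega),
        if_pos (by dsimp only; omega)]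
      dsimp only
      rw [show (2 * i + 2) / 2 - 1 = i by omega, show l + 2 - 2 = l by omega]
    unfold cfv
    rw [h1]
    show start A b [9] + start A b [0, i, l] = _
    rw [start9, zero_add]
  neg := by
    intro i l hi hl
    have h1 : cI m n (2 * i + 2, n + l + 2) =
        ⟨Op.sub, [11, 2 * i + 2, n + l + 2], [9], [0, i, l]⟩ := by
      unfold cI
      rw [if_pos (by dsimp only; omega), if_neg (by dsimp only; omega),
        if_neg (by dsimp only; omega), if_pos (by dsimp only; omega),
        if_neg (by dsimp only; omega), if_pos (by dsimp only; omega)]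
      dsimp only
      rw [show (2 * i + 2) / 2 - 1 = i by omega, show n + l + 2 - 2 - n = l by omega]
    unfold cfv
    rw [h1]
    show start A b [9] - start A b [0, i, l] = _
    rw [start9, zero_sub]
  rhs := by
    intro i hi
    have h1 : cI m n (2 * i + 2, 2 * n + 2) =
        ⟨Op.sub, [11, 2 * i + 2, 2 * n + 2], [9], [1, i]⟩ := by
      unfold cI
      rw [if_pos (by dsimp only; omega), if_neg (by dsimp only; omega),
        if_neg (by dsimp only; omega), if_pos (by dsimp only; omega),
        if_neg (by dsimp only; omega), if_neg (by dsimp only; omega), if_pos rfl]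
      dsimp only
      rw [show (2 * i + 2) / 2 - 1 = i by omega]
    unfold cfv
    rw [h1]
    show start A b [9] - start A b [1, i] = _
    rw [start9, zero_sub]
  tie := by
    intro j h1 h2
    have h3 : cI m n (2 * m + 2, j) = ⟨Op.add, [11, 2 * m + 2, j], [9], [9]⟩ := by
      unfold cI
      rw [if_pos (by dsimp only; omega), if_neg (by dsimp only; omega),
        if_neg (by dsimp only; omega), if_neg (by dsimp only; omega)]
    unfold cfv
    rw [h3]
    show start A b [9] + start A b [9] = 0
    rw [start9, add_zero]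

/-- the store after the first parts -/
noncomputable def s1 : Reg → ℝ := fin (P1 m n) (start A b)
/-- the store after the first parts -/
noncomputable def s2 : Reg → ℝ := fin (P2 m n) (s1 A b)
/-- the store after the first parts -/
noncomputable def s3 : Reg → ℝ := fin (P3 m n) (s2 A b)
/-- the store after the first parts -/
noncomputable def s4 : Reg → ℝ := fin (P4 m n) (s3 A b)
/-- the store after the first parts -/
noncomputable def s5 : Reg → ℝ := fin (P5 m n) (s4 A b)

theorem s1_v {v : ℕ × ℕ} (hv : v ∈ nodesL m n) : s1 A b [11, v.1, v.2] = cfv A b v.1 v.2 := by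
  have h1 := fin_par (P1 m n) (par_P1 m n) (start A b) (cI m n v)
    (List.mem_append_left _ (List.mem_map_of_mem hv))
  rw [cI_dst] at h1
  exact h1

theorem s1_10 : s1 A b [10] = -1 := by
  have h1 := fin_par (P1 m n) (par_P1 m n) (start A b) ⟨Op.sub, [10], [9], [2]⟩
    (List.mem_append_right _ (by simp))
  have h2 : ival (start A b) ⟨Op.sub, [10], [9], [2]⟩ = -1 := by
    show start A b [9] - start A b [2] = -1
    rw [start9, start2, zero_sub]
  rw [h2] at h1
  exact h1

theorem s1_9 : s1 A b [9] = 0 := keep1 (by simp) (by simp)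

theorem s1_2 : s1 A b [2] = 1 := keep1 (by simp) (by simp)

theorem mem_cab_nodes {e : Cb} (he : e ∈ cabL m n) : e.1 ∈ nodesL m n ∧ e.2 ∈ nodesL m n := by
  have h := (List.mem_filter.1 he).1
  exact ⟨(List.mem_product.1 h).1, (List.mem_product.1 h).2⟩

theorem s2_sq {v : ℕ × ℕ} (hv : v ∈ nodesL m n) :
    s2 A b [14, v.1, v.2] = cfv A b v.1 v.2 * cfv A b v.1 v.2 := by
  have h1 := fin_par (P2 m n) (par_P2 m n) (s1 A b)
    ⟨Op.mul, [14, v.1, v.2], [11, v.1, v.2], [11, v.1, v.2]⟩
    (List.mem_append_left _ (List.mem_map_of_mem (f := fun v : ℕ × ℕ =>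
      (⟨Op.mul, [14, v.1, v.2], [11, v.1, v.2], [11, v.1, v.2]⟩ : Instr)) hv))
  have h2 : ival (s1 A b) ⟨Op.mul, [14, v.1, v.2], [11, v.1, v.2], [11, v.1, v.2]⟩ =
      cfv A b v.1 v.2 * cfv A b v.1 v.2 := by
    show s1 A b [11, v.1, v.2] * s1 A b [11, v.1, v.2] = _
    rw [s1_v A b hv]
  rw [h2] at h1
  exact h1

theorem s2_d {e : Cb} (he : e ∈ cabL m n) :
    s2 A b (rg 12 e) = cfv A b e.1.1 e.1.2 - cfv A b e.2.1 e.2.2 := by
  have h1 := fin_par (P2 m n) (par_P2 m n) (s1 A b)
    ⟨Op.sub, rg 12 e, [11, e.1.1, e.1.2], [11, e.2.1, e.2.2]⟩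
    (List.mem_append_right _ (List.mem_map_of_mem (f := fun e : Cb =>
      (⟨Op.sub, rg 12 e, [11, e.1.1, e.1.2], [11, e.2.1, e.2.2]⟩ : Instr)) he))
  have h2 : ival (s1 A b) ⟨Op.sub, rg 12 e, [11, e.1.1, e.1.2], [11, e.2.1, e.2.2]⟩ =
      cfv A b e.1.1 e.1.2 - cfv A b e.2.1 e.2.2 := by
    show s1 A b [11, e.1.1, e.1.2] - s1 A b [11, e.2.1, e.2.2] = _
    rw [s1_v A b (mem_cab_nodes he).1, s1_v A b (mem_cab_nodes he).2]
  rw [h2] at h1
  exact h1

theorem s2_9 : s2 A b [9] = 0 := (keep2 (by simp) (by simp)).trans (s1_9 A b)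
theorem s2_2 : s2 A b [2] = 1 := (keep2 (by simp) (by simp)).trans (s1_2 A b)
theorem s2_10 : s2 A b [10] = -1 := (keep2 (by simp) (by simp)).trans (s1_10 A b)
theorem s2_13 : s2 A b [13] = 0 :=
  (keep2 (by simp) (by simp)).trans ((keep1 (by simp) (by simp)).trans rfl)

theorem not_sreg : ([13] : Reg) ∉ sreg m n := by
  unfold sreg
  simp

theorem s3_13 : s3 A b [13] = wd m n (cfv A b) := by
  unfold s3 P3
  rw [fin_acc _ _ not_sreg, s2_13, zero_add]
  unfold sreg wd
  simp only [List.map_append, List.map_cons, List.map_nil, List.map_map, List.sum_append,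
    List.sum_cons, List.sum_nil, s2_2]
  have h1 : (nodesL m n).map (s2 A b ∘ fun v => [14, v.1, v.2]) =
      (nodesL m n).map (fun v => cfv A b v.1 v.2 * cfv A b v.1 v.2) :=
    List.map_congr_left fun v hv => s2_sq A b hv
  rw [h1]
  ring

theorem s3_9 : s3 A b [9] = 0 := (keep3 (by simp)).trans (s2_9 A b)
theorem s3_2 : s3 A b [2] = 1 := (keep3 (by simp)).trans (s2_2 A b)
theorem s3_10 : s3 A b [10] = -1 := (keep3 (by simp)).trans (s2_10 A b)

theorem s3_d {e : Cb} (he : e ∈ cabL m n) :
    s3 A b (rg 12 e) = cfv A b e.1.1 e.1.2 - cfv A b e.2.1 e.2.2 :=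
  (keep3 (by simp [rg])).trans (s2_d A b he)

/-- the difference of the abscissas of the ends of a cable -/
noncomputable def dx (e : Cb) : ℝ :=
  px m n (cfv A b) e.2.1 e.2.2 - px m n (cfv A b) e.1.1 e.1.2

theorem s4_d {e : Cb} (he : e ∈ cabL m n) : s4 A b (rg 7 e) = dx A b e := by
  have h1 := fin_par (P4 m n) (par_P4 m n) (s3 A b)
    ⟨Op.add, rg 7 e, rg 12 e, if e.2.1 = e.1.1 then [13] else [9]⟩
    (List.mem_map_of_mem (f := fun e : Cb =>
      (⟨Op.add, rg 7 e, rg 12 e, if e.2.1 = e.1.1 then [13] else [9]⟩ : Instr)) he)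
  have h2 : ival (s3 A b) ⟨Op.add, rg 7 e, rg 12 e, if e.2.1 = e.1.1 then [13] else [9]⟩ =
      dx A b e := by
    show s3 A b (rg 12 e) + s3 A b (if e.2.1 = e.1.1 then [13] else [9]) = _
    rw [s3_d A b he]
    unfold dx px
    rw [mem_cabL] at he
    rcases he with ⟨r, j, -, -, -, rfl⟩ | ⟨r, j, -, -, -, -, -, rfl⟩
    · rw [if_neg (by simp), s3_9]
      ring
    · rw [if_pos rfl, s3_13]
      push_cast
      ring
  rw [h2] at h1
  exact h1

theorem s4_9 : s4 A b [9] = 0 := (keep4 (by simp)).trans (s3_9 A b)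
theorem s4_2 : s4 A b [2] = 1 := (keep4 (by simp)).trans (s3_2 A b)
theorem s4_10 : s4 A b [10] = -1 := (keep4 (by simp)).trans (s3_10 A b)

theorem s5_8 {e : Cb} (he : e ∈ cabL m n) : s5 A b (rg 8 e) = -dx A b e := by
  have h1 := fin_par (P5 m n) (par_P5 m n) (s4 A b) ⟨Op.sub, rg 8 e, [9], rg 7 e⟩
    (List.mem_map_of_mem (f := fun e : Cb => (⟨Op.sub, rg 8 e, [9], rg 7 e⟩ : Instr)) he)
  have h2 : ival (s4 A b) ⟨Op.sub, rg 8 e, [9], rg 7 e⟩ = -dx A b e := by
    show s4 A b [9] - s4 A b (rg 7 e) = _
    rw [s4_d A b he, s4_9, zero_sub]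
  rw [h2] at h1
  exact h1

theorem s5_9 : s5 A b [9] = 0 := (keep5 (by simp)).trans (s4_9 A b)
theorem s5_2 : s5 A b [2] = 1 := (keep5 (by simp)).trans (s4_2 A b)
theorem s5_10 : s5 A b [10] = -1 := (keep5 (by simp)).trans (s4_10 A b)
theorem s5_7 {e : Cb} (he : e ∈ cabL m n) : s5 A b (rg 7 e) = dx A b e :=
  (keep5 (by simp [rg])).trans (s4_d A b he)

/-- the matrix of the system of the net -/
noncomputable def mA : Matrix (Fin (rowsL m n).length) (Fin (cabL m n).length) ℝ :=
  fun i j => s5 A b (ereg (rowsL m n)[i] (cabL m n)[j])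

/-- the right-hand side of the system of the net -/
noncomputable def mb : Fin (rowsL m n).length → ℝ := fun i => s5 A b (rreg m n (rowsL m n)[i])

theorem le_cab : m ≤ (cabL m n).length ∧ n ≤ (cabL m n).length := by
  constructor
  · have h1 : ((List.range m).map (fun r => (((r, 1), (r + 1, 1)) : Cb))).length ≤
        (cabL m n).length := by
      refine List.Subperm.length_le (List.subperm_of_subset ?_ ?_)
      · refine List.nodup_range.map fun a b h => ?_
        simp only [Prod.mk.injEq] at h
        omega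
      · intro e he
        rw [List.mem_map] at he
        obtain ⟨r, hr, rfl⟩ := he
        rw [List.mem_range] at hr
        exact mem_cabL.2 (Or.inl ⟨r, 1, by omega, le_rfl, by omega, rfl⟩)
    simpa using h1
  · have h1 : ((List.range n).map (fun r => (((0, r + 1), (1, r + 1)) : Cb))).length ≤
        (cabL m n).length := by
      refine List.Subperm.length_le (List.subperm_of_subset ?_ ?_)
      · refine List.nodup_range.map fun a b h => ?_
        simp only [Prod.mk.injEq] at h
        omega
      · intro e he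
        rw [List.mem_map] at he
        obtain ⟨r, hr, rfl⟩ := he
        rw [List.mem_range] at hr
        exact mem_cabL.2 (Or.inl ⟨0, r + 1, by omega, by omega, by omega, rfl⟩)
    simpa using h1

theorem cab_le_rows : (cabL m n).length ≤ (rowsL m n).length := by
  unfold rowsL
  rw [List.length_append, List.length_map, List.length_map]
  omega

/-- **The program computes the system of the net.** -/
theorem fin_prog : fin (prog m n) (start A b) = start (mA A b) (mb A b) := by
  have hlm : m ≤ (rowsL m n).length := le_cab.1.trans cab_le_rows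
  have hln : n ≤ (cabL m n).length := le_cab.2
  have h0 : fin (prog m n) (start A b) = fin (P7 m n) (fin (P6 m n) (s5 A b)) := by
    unfold prog
    rw [fin_append, fin_append, fin_append, fin_append, fin_append, fin_append]
    rfl
  rw [h0]
  funext x
  have s5_keep : x ∉ aux m n → s5 A b x = start A b x ∨ True := fun _ => Or.inr trivial
  by_cases hx : x ∈ aux m n
  · -- auxiliary registers
    have h1 := fin_par (P7 m n) (par_P7 m n) (fin (P6 m n) (s5 A b)) ⟨Op.sub, x, [9], [9]⟩
      (List.mem_map_of_mem (f := fun s : Reg => (⟨Op.sub, s, [9], [9]⟩ : Instr)) hx)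
    have h2 : ival (fin (P6 m n) (s5 A b)) ⟨Op.sub, x, [9], [9]⟩ = 0 := sub_self _
    rw [h2] at h1
    refine Eq.trans h1 ?_
    rw [mem_aux] at hx
    rcases hx with ⟨v, -, rfl⟩ | ⟨v, -, rfl⟩ | ⟨e, -, rfl⟩ | ⟨e, -, rfl⟩ | ⟨e, -, rfl⟩ | rfl | rfl <;>
      rfl
  · rw [keep7 hx]
    have hother : (∀ i j, x ≠ [0, i, j]) → (∀ i, x ≠ [1, i]) →
        fin (P6 m n) (s5 A b) x = start A b x := by
      intro hx0 hx1
      rw [keep6 (fun i j _ _ => hx0 i j) (fun i _ => hx1 i)]
      rw [mem_aux] at hx
      simp only [not_or, not_exists, not_and] at hx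
      obtain ⟨g1, g2, g3, g4, g5, g6, g7⟩ := hx
      have k5 : s5 A b x = s4 A b x := by
        refine fin_of_not _ _ (fun I hI => ?_) _
        simp only [P5, List.mem_map] at hI
        obtain ⟨e, he, rfl⟩ := hI
        exact Ne.symm (g5 e he)
      have k4 : s4 A b x = s3 A b x := by
        refine fin_of_not _ _ (fun I hI => ?_) _
        simp only [P4, List.mem_map] at hI
        obtain ⟨e, he, rfl⟩ := hI
        exact Ne.symm (g4 e he)
      have k3 : s3 A b x = s2 A b x := keep3 g6
      have k2 : s2 A b x = s1 A b x := by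
        refine fin_of_not _ _ (fun I hI => ?_) _
        simp only [P2, List.mem_append, List.mem_map] at hI
        rcases hI with ⟨v, hv, rfl⟩ | ⟨e, he, rfl⟩
        · exact Ne.symm (g2 v hv)
        · exact Ne.symm (g3 e he)
      have k1 : s1 A b x = start A b x := by
        refine fin_of_not _ _ (fun I hI => ?_) _
        simp only [P1, List.mem_append, List.mem_map, List.mem_cons, List.not_mem_nil,
          or_false] at hI
        rcases hI with ⟨v, hv, rfl⟩ | rfl
        · rw [cI_dst]
          exact Ne.symm (g1 v hv)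
        · exact Ne.symm g7
      rw [k5, k4, k3, k2, k1]
    have h01 : ∀ (y : Reg), (y.head? = some 0 ∨ y.head? = some 1) → s5 A b y = start A b y := by
      intro y hy
      have e1 : ∀ t, 2 ≤ t → y.head? ≠ some t := by
        intro t ht h
        rcases hy with hy | hy <;> rw [hy] at h <;> simp at h <;> omega
      have e2 : y ≠ [13] := by
        rintro rfl
        exact e1 13 (by omega) rfl
      exact (keep5 (e1 8 (by omega))).trans ((keep4 (e1 7 (by omega))).trans ((keep3 e2).trans
        ((keep2 (e1 14 (by omega)) (e1 12 (by omega))).trans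
          (keep1 (e1 11 (by omega)) (e1 10 (by omega))))))
    by_cases hx0 : ∃ i j, x = [0, i, j]
    · obtain ⟨i, j, rfl⟩ := hx0
      by_cases hij : i < (rowsL m n).length ∧ j < (cabL m n).length
      · have h1 := fin_par (P6 m n) (par_P6 m n) (s5 A b)
          ⟨Op.add, [0, i, j], ereg (rowsL m n)[i] (cabL m n)[j], [9]⟩
          (mem_P6.2 (Or.inl ⟨(rowsL m n)[i], i, (cabL m n)[j], j,
            List.mem_zipIdx_iff_getElem?.2 (by simp [hij.1]),
            List.mem_zipIdx_iff_getElem?.2 (by simp [hij.2]), rfl⟩))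
        refine Eq.trans h1 ?_
        show s5 A b _ + s5 A b [9] = (if h : i < (rowsL m n).length ∧ j < (cabL m n).length then
          mA A b ⟨i, h.1⟩ ⟨j, h.2⟩ else 0)
        rw [s5_9, add_zero, dif_pos hij]
        rfl
      · rw [keep6, h01 _ (Or.inl rfl)]
        · show (if h : i < m ∧ j < n then A ⟨i, h.1⟩ ⟨j, h.2⟩ else 0) =
            (if h : i < (rowsL m n).length ∧ j < (cabL m n).length then
              mA A b ⟨i, h.1⟩ ⟨j, h.2⟩ else 0)
          rw [dif_neg hij, dif_neg (fun h => hij ⟨by omega, by omega⟩)]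
        · intro i' j' h1 h2 h3
          simp only [List.cons.injEq, and_true, true_and] at h3
          exact hij ⟨h3.1 ▸ h1, h3.2 ▸ h2⟩
        · intro i' _
          simp
    · by_cases hx1 : ∃ i, x = [1, i]
      · obtain ⟨i, rfl⟩ := hx1
        by_cases hi : i < (rowsL m n).length
        · have h1 := fin_par (P6 m n) (par_P6 m n) (s5 A b)
            ⟨Op.add, [1, i], rreg m n (rowsL m n)[i], [9]⟩
            (mem_P6.2 (Or.inr ⟨(rowsL m n)[i], i,
              List.mem_zipIdx_iff_getElem?.2 (by simp [hi]), rfl⟩))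
          refine Eq.trans h1 ?_
          show s5 A b _ + s5 A b [9] = (if h : i < (rowsL m n).length then mb A b ⟨i, h⟩ else 0)
          rw [s5_9, add_zero, dif_pos hi]
          rfl
        · rw [keep6, h01 _ (Or.inr rfl)]
          · show (if h : i < m then b ⟨i, h⟩ else 0) =
              (if h : i < (rowsL m n).length then mb A b ⟨i, h⟩ else 0)
            rw [dif_neg hi, dif_neg (fun h => hi (by omega))]
          · intro i' j' _ _
            simp
          · intro i' h1 h2
            simp only [List.cons.injEq, and_true, true_and] at h2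
            exact hi (h2 ▸ h1)
      · rw [hother (fun i j h => hx0 ⟨i, j, h⟩) (fun i h => hx1 ⟨i, h⟩)]
        unfold start
        split
        · exact absurd ⟨_, _, rfl⟩ hx0
        · exact absurd ⟨_, rfl⟩ hx1
        · rfl
        · rfl

end

end Pool.Agent.U17.PN
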