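import Pool.Agent.U17.PN.Store

/-!
# The matrix computed by the program is the system of the net
-/

set_option autoImplicit false

namespace Pool.Agent.U17.PN

open Pool.Agent.H558R2 Pool.Agent.H622R3.SM Pool.Agent.NPC Pool.Agent.NPC.R671

section

variable {m n : ℕ} (A : Matrix (Fin m) (Fin n) ℝ) (b : Fin m → ℝ)

/-- the net of a system of linear inequalities -/
noncomputable abbrev netOf : Web := netWeb m n (cfv A b)

/-- labels of the rows -/
def codeR : ({v // v ∈ (netOf A b).free} × Fin 4) ⊕ {e // e ∈ (netOf A b).cables} → Rw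
  | .inl (v, s) => .inl (v.1, (s : ℕ))
  | .inr e => .inr e.1

theorem codeR_inj : Function.Injective (codeR A b) := by
  rintro (⟨v, s⟩ | e) (⟨v', s'⟩ | e') h
  · simp only [codeR, Sum.inl.injEq, Prod.mk.injEq] at h
    rw [Subtype.ext h.1, Fin.ext h.2]
  · simp [codeR] at h
  · simp [codeR] at h
  · simp only [codeR, Sum.inr.injEq] at h
    rw [Subtype.ext h]

theorem nodup_rowsL (m n : ℕ) : (rowsL m n).Nodup := by
  unfold rowsL
  refine List.Nodup.append ?_ ?_ ?_
  · exact ((nodup_freeL m n).product (by simp)).map Sum.inl_injective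
  · exact (nodup_cabL m n).map Sum.inr_injective
  · intro z h1 h2
    rw [List.mem_map] at h1 h2
    obtain ⟨v, -, rfl⟩ := h1
    obtain ⟨e, -, h⟩ := h2
    simp at h

theorem mem_rowsL (z : Rw) : z ∈ rowsL m n ↔ ∃ x, codeR A b x = z := by
  unfold rowsL
  rw [List.mem_append, List.mem_map, List.mem_map]
  constructor
  · rintro (⟨⟨v, s⟩, h, rfl⟩ | ⟨e, h, rfl⟩)
    · rw [List.mem_product] at h
      have hs : s < 4 := by
        have := h.2
        simp only [List.mem_cons, List.not_mem_nil, or_false] at this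
        omega
      exact ⟨.inl (⟨v, mem_net_free.2 h.1⟩, ⟨s, hs⟩), rfl⟩
    · exact ⟨.inr ⟨e, mem_net.2 h⟩, rfl⟩
  · rintro ⟨⟨v, s⟩ | e, rfl⟩
    · refine Or.inl ⟨(v.1, (s : ℕ)), ?_, rfl⟩
      rw [List.mem_product]
      refine ⟨mem_net_free.1 v.2, ?_⟩
      fin_cases s <;> simp
    · exact Or.inr ⟨e.1, mem_net.1 e.2, rfl⟩

/-- the pull of a cable -/
theorem pull_eq {e : Cb} (he : e ∈ cabL m n) (v : ℕ × ℕ) : (netOf A b).pull e v =
    if e.1 = v then (dx A b e, if e.2.1 = e.1.1 then (0 : ℝ) else 1)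
    else if e.2 = v then (-dx A b e, if e.2.1 = e.1.1 then (0 : ℝ) else -1) else 0 := by
  have hy : ((e.2.1 : ℕ) : ℝ) - ((e.1.1 : ℕ) : ℝ) = if e.2.1 = e.1.1 then (0 : ℝ) else 1 := by
    rw [mem_cabL] at he
    rcases he with ⟨r, j, -, -, -, rfl⟩ | ⟨r, j, -, -, -, -, -, rfl⟩
    · rw [if_neg (by simp)]
      push_cast
      ring
    · rw [if_pos rfl]
      simp
  have hne : e.1 ≠ e.2 := by
    rw [mem_cabL] at he
    rcases he with ⟨r, j, -, -, -, rfl⟩ | ⟨r, j, -, -, -, -, -, rfl⟩ <;> simp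
  unfold Web.pull
  by_cases h1 : e.1 = v
  · subst h1
    rw [if_pos rfl, if_neg (Ne.symm hne), if_pos rfl, add_zero, ← hy]
    rfl
  · by_cases h2 : e.2 = v
    · subst h2
      rw [if_neg h1, if_pos rfl, if_neg h1, if_pos rfl, zero_add]
      refine Prod.ext ?_ ?_
      · show px m n (cfv A b) e.1.1 e.1.2 - px m n (cfv A b) e.2.1 e.2.2 = -dx A b e
        unfold dx
        ring
      · show ((e.1.1 : ℕ) : ℝ) - ((e.2.1 : ℕ) : ℝ) = if e.2.1 = e.1.1 then (0 : ℝ) else -1
        have h3 : ((e.1.1 : ℕ) : ℝ) - ((e.2.1 : ℕ) : ℝ) =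
            -(((e.2.1 : ℕ) : ℝ) - ((e.1.1 : ℕ) : ℝ)) := by ring
        rw [h3, hy]
        split_ifs <;> simp
    · rw [if_neg h1, if_neg h2, if_neg h1, if_neg h2, add_zero]

theorem entry_eq (ρ : ({v // v ∈ (netOf A b).free} × Fin 4) ⊕ {e // e ∈ (netOf A b).cables})
    (e : {e // e ∈ (netOf A b).cables}) :
    s5 A b (ereg (codeR A b ρ) e.1) = (netOf A b).entry ρ e := by
  have he : e.1 ∈ cabL m n := mem_net.1 e.2
  rcases ρ with ⟨v, s⟩ | e'
  · show s5 A b (ereg1 (v.1, (s : ℕ)) e.1) = coord s ((netOf A b).pull e.1 v.1)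
    rw [pull_eq A b he]
    unfold ereg1
    by_cases h1 : e.1.1 = v.1
    · simp only [h1, if_true]
      fin_cases s
      · exact s5_7 A b he
      · exact s5_8 A b he
      · show s5 A b (if e.1.2.1 = v.1.1 then [9] else [2]) = (if e.1.2.1 = v.1.1 then (0 : ℝ) else 1)
        split_ifs
        · exact s5_9 A b
        · exact s5_2 A b
      · show s5 A b (if e.1.2.1 = v.1.1 then [9] else [10]) =
          -(if e.1.2.1 = v.1.1 then (0 : ℝ) else 1)
        split_ifs
        · rw [neg_zero]; exact s5_9 A b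
        · exact s5_10 A b
    · by_cases h2 : e.1.2 = v.1
      · simp only [h1, h2, if_true, if_false]
        fin_cases s
        · exact s5_8 A b he
        · show s5 A b (rg 7 e.1) = - -dx A b e.1
          rw [neg_neg]
          exact s5_7 A b he
        · show s5 A b (if v.1.1 = e.1.1.1 then [9] else [10]) =
            (if v.1.1 = e.1.1.1 then (0 : ℝ) else -1)
          split_ifs
          · exact s5_9 A b
          · exact s5_10 A b
        · show s5 A b (if v.1.1 = e.1.1.1 then [9] else [2]) =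
            -(if v.1.1 = e.1.1.1 then (0 : ℝ) else -1)
          split_ifs
          · rw [neg_zero]; exact s5_9 A b
          · rw [neg_neg]; exact s5_2 A b
      · simp only [h1, h2, if_false]
        rw [s5_9]
        fin_cases s <;> simp [coord]
  · show s5 A b (if e.1 = e'.1 then [2] else [9]) = if e = e' then 1 else 0
    by_cases h : e = e'
    · rw [if_pos h, if_pos (congrArg Subtype.val h)]
      exact s5_2 A b
    · rw [if_neg h, if_neg (fun h' => h (Subtype.ext h'))]
      exact s5_9 A b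

theorem rhs_eq (ρ : ({v // v ∈ (netOf A b).free} × Fin 4) ⊕ {e // e ∈ (netOf A b).cables}) :
    s5 A b (rreg m n (codeR A b ρ)) = (netOf A b).rhs ρ := by
  rcases ρ with ⟨v, s⟩ | e'
  · show s5 A b (if v.1 = (2 * m + 4, 2 * n + 2) then
      (if (s : ℕ) = 2 then [10] else if (s : ℕ) = 3 then [2] else [9]) else [9]) =
      -coord s ((netOf A b).load v.1)
    by_cases h : v.1 = (2 * m + 4, 2 * n + 2)
    · rw [if_pos h, h, net_load']
      fin_cases s
      · show s5 A b [9] = -(0 : ℝ)
        rw [s5_9, neg_zero]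
      · show s5 A b [9] = - -(0 : ℝ)
        rw [s5_9, neg_zero, neg_zero]
      · exact s5_10 A b
      · show s5 A b [2] = - -(1 : ℝ)
        rw [s5_2, neg_neg]
    · rw [if_neg h, net_load h, s5_9]
      fin_cases s <;> simp [coord]
  · exact s5_9 A b

/-- **The matrix computed by the program is the system of the net.** -/
theorem mA_system : (netOf A b).System (mA A b) (mb A b) := by
  obtain ⟨r, hr⟩ := exists_equiv (rowsL m n) (nodup_rowsL m n) (codeR A b) (codeR_inj A b)
    (mem_rowsL A b)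
  obtain ⟨c, hc⟩ := exists_equiv (cabL m n) (nodup_cabL m n)
    (Subtype.val : {e // e ∈ (netOf A b).cables} → Cb) Subtype.val_injective (fun z => by
      constructor
      · intro h
        exact ⟨⟨z, mem_net.2 h⟩, rfl⟩
      · rintro ⟨x, rfl⟩
        exact mem_net.1 x.2)
  refine ⟨r, c, fun i j => ?_, fun i => ?_⟩
  · rw [← entry_eq, hr, hc]
    rfl
  · rw [← rhs_eq, hr]
    rfl

theorem mA_net : NetSystem _ _ (mA A b) (mb A b) :=
  ⟨netOf A b, netWeb_grid (cfv_coef A b), mA_system A b⟩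

/-- **The system of the net is solvable iff the given system is solvable.** -/
theorem mA_iff : (∃ x, mb A b ≤ (mA A b).mulVec x) ↔ ∃ x : Fin n → ℝ, b ≤ A.mulVec x := by
  rw [system_iff _ _ _ (mA_system A b), carries_iff (cfv_coef A b)]
  have key : ∀ (x : ℕ → ℝ) (i : Fin m), ∑ l ∈ Finset.range n, start A b [0, i, l] * x l =
      A.mulVec (fun l => x l) i := by
    intro x i
    rw [Finset.sum_range (fun l => start A b [0, (i : ℕ), l] * x l)]
    refine Finset.sum_congr rfl fun l _ => ?_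
    show (if h : (i : ℕ) < m ∧ (l : ℕ) < n then A ⟨i, h.1⟩ ⟨l, h.2⟩ else 0) * _ = _
    rw [dif_pos ⟨i.2, l.2⟩]
  have keyb : ∀ i : Fin m, start A b [1, i] = b i := by
    intro i
    show (if h : (i : ℕ) < m then b ⟨i, h⟩ else 0) = _
    rw [dif_pos i.2]
  constructor
  · rintro ⟨x, hx⟩
    refine ⟨fun l => x l, fun i => ?_⟩
    have h1 := hx i i.2
    rw [key, keyb] at h1
    exact h1
  · rintro ⟨x, hx⟩
    refine ⟨fun l => if h : l < n then x ⟨l, h⟩ else 0, fun i hi => ?_⟩
    have h1 := key (fun l => if h : l < n then x ⟨l, h⟩ else 0) ⟨i, hi⟩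
    dsimp only at h1 ⊢
    rw [h1]
    have h2 := keyb ⟨i, hi⟩
    dsimp only at h2
    rw [h2]
    have h3 : (fun l : Fin n => if h : (l : ℕ) < n then x ⟨l, h⟩ else 0) = x := by
      funext l
      rw [dif_pos l.2]
    rw [h3]
    exact hx ⟨i, hi⟩

end

end Pool.Agent.U17.PN
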